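import Mathlib

set_option autoImplicit false
set_option linter.unusedSectionVars false

/-!
# Arrays of index one: counting

`OA m f`: the words `f w`, `w : W`, over the alphabet `A`, with coordinates in `I`, form an
orthogonal array of strength `m` and index one.
-/

namespace Pool.Agent.H2.OAX

variable {W I A : Type} [Fintype W] [DecidableEq W] [Fintype I] [DecidableEq I]
  [Fintype A] [DecidableEq A]

/-- orthogonal array of strength `m` and index one -/
def OA (m : ℕ) (f : W → I → A) : Prop :=
  ∀ S : Finset I, S.card = m → ∀ v : I → A, ∃! w, ∀ i ∈ S, f w i = v i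

/-- the words with prescribed values on `S` -/
def fib (f : W → I → A) (S : Finset I) (v : I → A) : Finset W :=
  Finset.univ.filter (fun w => ∀ i ∈ S, f w i = v i)

/-- the coordinates on which two words agree -/
def agr (f : W → I → A) (v v' : W) : Finset I :=
  Finset.univ.filter (fun i => f v i = f v' i)

variable {m : ℕ} {f : W → I → A}

theorem mem_fib {S : Finset I} {v : I → A} {w : W} :
    w ∈ fib f S v ↔ ∀ i ∈ S, f w i = v i := by
  simp [fib]

theorem mem_agr {v w : W} {i : I} : i ∈ agr f v w ↔ f v i = f w i := by
  simp [agr]

theorem agr_comm (v w : W) : agr f v w = agr f w v := by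
  ext i; rw [mem_agr, mem_agr, eq_comm]

theorem OA.card_agr_lt (h : OA m f) {v w : W} (hvw : v ≠ w) : (agr f v w).card < m := by
  by_contra hcon
  push Not at hcon
  obtain ⟨T, hT, hTc⟩ := Finset.exists_subset_card_eq hcon
  obtain ⟨u, -, hu⟩ := h T hTc (f w)
  apply hvw
  rw [hu v (fun i hi => mem_agr.1 (hT hi)), hu w (fun i _ => rfl)]

/-- words which agree on `m` coordinates are equal -/
theorem OA.eq_of (h : OA m f) {v w : W} (S : Finset I) (hS : m ≤ S.card)
    (hvw : ∀ i ∈ S, f v i = f w i) : v = w := by
  by_contra hne
  have h1 := h.card_agr_lt hne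
  have h2 : S ⊆ agr f v w := fun i hi => mem_agr.2 (hvw i hi)
  have h3 := Finset.card_le_card h2
  omega

/-- the number of words with prescribed values on at most `m` coordinates -/
theorem OA.card_fib (h : OA m f) (hk : m ≤ Fintype.card I) (S : Finset I) (hS : S.card ≤ m)
    (v : I → A) : (fib f S v).card = Fintype.card A ^ (m - S.card) := by
  obtain ⟨d, hd⟩ : ∃ d, d = m - S.card := ⟨_, rfl⟩
  rw [← hd]
  induction d generalizing S v with
  | zero =>
    have hc : S.card = m := by omega
    obtain ⟨u, hu, huu⟩ := h S hc v
    rw [pow_zero, Finset.card_eq_one]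
    refine ⟨u, ?_⟩
    ext w
    rw [mem_fib, Finset.mem_singleton]
    exact ⟨fun hw => huu w hw, fun hw => hw ▸ hu⟩
  | succ d ih =>
    obtain ⟨i, hi⟩ : ∃ i, i ∉ S := by
      by_contra hcon
      push Not at hcon
      have : S = Finset.univ := Finset.eq_univ_iff_forall.2 hcon
      rw [this, Finset.card_univ] at hd
      omega
    have hSi : (insert i S).card = S.card + 1 := Finset.card_insert_of_notMem hi
    have hfib : ∀ a : A, ((fib f S v).filter (fun w => f w i = a)).card
        = Fintype.card A ^ d := by
      intro a
      have key : (fib f S v).filter (fun w => f w i = a) =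
          fib f (insert i S) (Function.update v i a) := by
        ext w
        rw [Finset.mem_filter, mem_fib, mem_fib]
        constructor
        · rintro ⟨h1, h3⟩ j hj
          rcases Finset.mem_insert.1 hj with rfl | hj
          · rw [Function.update_self]; exact h3
          · have : j ≠ i := fun h' => hi (h' ▸ hj)
            rw [Function.update_of_ne this]; exact h1 j hj
        · intro h1
          refine ⟨fun j hj => ?_, ?_⟩
          · have := h1 j (Finset.mem_insert_of_mem hj)
            have hne : j ≠ i := fun h' => hi (h' ▸ hj)
            rwa [Function.update_of_ne hne] at this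
          · have := h1 i (Finset.mem_insert_self _ _)
            rwa [Function.update_self] at this
      rw [key]
      exact ih _ (by omega) _ (by omega)
    rw [Finset.card_eq_sum_card_fiberwise (f := fun w => f w i) (t := Finset.univ)
      (fun _ _ => Finset.mem_univ _), Finset.sum_congr rfl (fun a _ => hfib a), Finset.sum_const,
      Finset.card_univ, smul_eq_mul, pow_succ, mul_comm]

/-- the word with the values of `v` on `R`, the value `a` at `i` and the value of `v'` at `j` -/
theorem OA.exists3 (h : OA m f) (R : Finset I) (i j : I) (hi : i ∉ R) (hj : j ∉ R) (hij : i ≠ j)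
    (hR : R.card + 2 = m) (v : I → A) (a b : A) :
    ∃! w, (∀ t ∈ R, f w t = v t) ∧ f w i = a ∧ f w j = b := by
  have hc : (insert i (insert j R)).card = m := by
    rw [Finset.card_insert_of_notMem, Finset.card_insert_of_notMem hj]
    · omega
    · simp [hij, hi]
  obtain ⟨w, hw, hu⟩ := h _ hc (Function.update (Function.update v j b) i a)
  have key : ∀ w', (∀ t ∈ insert i (insert j R),
      f w' t = Function.update (Function.update v j b) i a t) ↔
      ((∀ t ∈ R, f w' t = v t) ∧ f w' i = a ∧ f w' j = b) := by
    intro w'
    constructor
    · intro h1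
      refine ⟨fun t ht => ?_, ?_, ?_⟩
      · have := h1 t (by simp [ht])
        rwa [Function.update_of_ne (ne_of_mem_of_not_mem ht hi),
          Function.update_of_ne (ne_of_mem_of_not_mem ht hj)] at this
      · have := h1 i (by simp)
        rwa [Function.update_self] at this
      · have := h1 j (by simp)
        rwa [Function.update_of_ne hij.symm, Function.update_self] at this
    · rintro ⟨h1, h2, h3⟩ t ht
      rcases Finset.mem_insert.1 ht with rfl | ht
      · rw [Function.update_self]; exact h2
      rcases Finset.mem_insert.1 ht with rfl | ht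
      · rw [Function.update_of_ne hij.symm, Function.update_self]; exact h3
      · rw [Function.update_of_ne (ne_of_mem_of_not_mem ht hi),
          Function.update_of_ne (ne_of_mem_of_not_mem ht hj)]; exact h1 t ht
  refine ⟨w, (key w).1 hw, fun w' hw' => hu w' ((key w').2 hw')⟩

end Pool.Agent.H2.OAX
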