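import Pool.Agent.H2.OAX.Basic

set_option autoImplicit false
set_option linter.unusedSectionVars false

/-!
# Arrays of index one with `n + m - 1` columns: arithmetical conditions
-/

namespace Pool.Agent.H2.OAX

variable {W I A : Type} [Fintype W] [DecidableEq W] [Fintype I] [DecidableEq I]
  [Fintype A] [DecidableEq A]
variable {m : ℕ} {f : W → I → A}

/-- with `n + m - 1` columns no two words agree on exactly `m - 2` coordinates -/
theorem no_tangent (h : OA m f) (hk : Fintype.card I + 1 = Fintype.card A + m)
    (hn : 1 ≤ Fintype.card A) (c w : W) (hcw : (agr f c w).card + 2 = m) : False := by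
  classical
  obtain ⟨i, hi⟩ : ∃ i, i ∉ agr f c w := by
    by_contra hcon
    push Not at hcon
    have : agr f c w = Finset.univ := Finset.eq_univ_iff_forall.2 hcon
    rw [this, Finset.card_univ] at hcw
    omega
  set R : Finset I := agr f c w with hR
  have ha : f w i ≠ f c i := fun h' => hi (mem_agr.2 h'.symm)
  set J : Finset I := (insert i R)ᶜ with hJ
  have hiR : (insert i R).card = R.card + 1 := Finset.card_insert_of_notMem hi
  have hJc : J.card = Fintype.card A := by
    have := Finset.card_add_card_compl (insert i R)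
    rw [← hJ] at this
    omega
  have hJm : ∀ j ∈ J, j ≠ i ∧ j ∉ R := by
    intro j hj
    rw [hJ, Finset.mem_compl, Finset.mem_insert] at hj
    push Not at hj
    exact hj
  set L : Finset W := fib f (insert i R) (f w) with hL
  have hLc : L.card = Fintype.card A := by
    rw [hL, h.card_fib (by omega) _ (by omega), hiR, show m - (R.card + 1) = 1 by omega, pow_one]
  have hex : ∀ j ∈ J, ∃ u, (∀ t ∈ R, f u t = f c t) ∧ f u i = f w i ∧ f u j = f c j := by
    intro j hj
    obtain ⟨u, hu, -⟩ := h.exists3 R i j hi (hJm j hj).2 (hJm j hj).1.symm hcw (f c) (f w i)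
      (f c j)
    exact ⟨u, hu⟩
  have hW : Nonempty W := ⟨c⟩
  choose! p hp using hex
  have hmaps : ∀ j ∈ J, p j ∈ L := by
    intro j hj
    rw [hL, mem_fib]
    intro t ht
    rcases Finset.mem_insert.1 ht with rfl | ht
    · exact (hp j hj).2.1
    · rw [(hp j hj).1 t ht]; exact mem_agr.1 ht
  have hinj : ∀ j ∈ J, ∀ j' ∈ J, p j = p j' → j = j' := by
    intro j hj j' hj' he
    by_contra hne
    apply ha
    rw [← (hp j hj).2.1]
    congr 1
    refine h.eq_of (insert j (insert j' R)) ?_ ?_
    · rw [Finset.card_insert_of_notMem, Finset.card_insert_of_notMem (hJm j' hj').2]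
      · omega
      · simp [hne, (hJm j hj).2]
    · intro t ht
      rcases Finset.mem_insert.1 ht with rfl | ht
      · exact (hp t hj).2.2
      rcases Finset.mem_insert.1 ht with rfl | ht
      · rw [he]; exact (hp t hj').2.2
      · exact (hp j hj).1 t ht
  have himg : J.image p = L := by
    apply Finset.eq_of_subset_of_card_le
    · intro u hu
      obtain ⟨j, hj, rfl⟩ := Finset.mem_image.1 hu
      exact hmaps j hj
    · rw [Finset.card_image_of_injOn (fun j hj j' hj' => hinj j hj j' hj'), hJc, hLc]
  have hwL : w ∈ L := by rw [hL, mem_fib]; intro t _; rfl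
  rw [← himg] at hwL
  obtain ⟨j, hj, hjw⟩ := Finset.mem_image.1 hwL
  apply (hJm j hj).2
  rw [hR, mem_agr, ← hjw]
  exact (hp j hj).2.2.symm

/-- the indicator of agreement -/
def dl (f : W → I → A) (c : W) (w : W) (i : I) : ℤ := if f w i = f c i then 1 else 0

theorem dl_mul_self (c w : W) (i : I) : dl f c w i * dl f c w i = dl f c w i := by
  unfold dl; split_ifs <;> simp

theorem sum_dl (c w : W) (K : Finset I) :
    ∑ i ∈ K, dl f c w i = ((K ∩ agr f c w).card : ℤ) := by
  unfold dl
  rw [Finset.sum_ite, Finset.sum_const_zero, add_zero, Finset.sum_const, nsmul_eq_mul, mul_one]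
  congr 2
  ext i
  rw [Finset.mem_filter, Finset.mem_inter, mem_agr, eq_comm (a := f w i)]

theorem sum_offDiag (c w : W) (K : Finset I) :
    ∑ z ∈ K.offDiag, dl f c w z.1 * dl f c w z.2 =
      (∑ i ∈ K, dl f c w i) ^ 2 - ∑ i ∈ K, dl f c w i := by
  have h1 : ∑ z ∈ K ×ˢ K, dl f c w z.1 * dl f c w z.2 = (∑ i ∈ K, dl f c w i) ^ 2 := by
    rw [Finset.sum_product, sq, Finset.sum_mul_sum]
  have h2 : ∑ z ∈ K.diag, dl f c w z.1 * dl f c w z.2 = ∑ i ∈ K, dl f c w i := by
    rw [Finset.sum_diag]
    exact Finset.sum_congr rfl (fun i _ => dl_mul_self c w i)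
  have h3 : K ×ˢ K = K.diag ∪ K.offDiag := (Finset.diag_union_offDiag K).symm
  rw [← h1, ← h2, h3, Finset.sum_union (Finset.disjoint_diag_offDiag K)]
  ring

/-- the number of words which agree with `c` on `S` and with `c'` on `T` -/
theorem count2 (h : OA m f) (hk : m ≤ Fintype.card I) (c c' : W) (S T : Finset I)
    (hST : Disjoint S T) (hm : S.card + T.card ≤ m) :
    ((Finset.univ.filter (fun w => (∀ i ∈ S, f w i = f c i) ∧ ∀ i ∈ T, f w i = f c' i)).card : ℤ)
      = (Fintype.card A : ℤ) ^ (m - (S.card + T.card)) := by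
  classical
  have hc : (S ∪ T).card = S.card + T.card := Finset.card_union_of_disjoint hST
  have h1 := h.card_fib hk (S ∪ T) (by omega) (fun i => if i ∈ S then f c i else f c' i)
  have h2 : (Finset.univ.filter (fun w => (∀ i ∈ S, f w i = f c i) ∧ ∀ i ∈ T, f w i = f c' i)) =
      fib f (S ∪ T) (fun i => if i ∈ S then f c i else f c' i) := by
    ext w
    rw [Finset.mem_filter, mem_fib]
    constructor
    · rintro ⟨-, h3, h4⟩ i hi
      by_cases hS : i ∈ S
      · simp only [hS, if_true]; exact h3 i hS
      · simp only [hS, if_false]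
        exact h4 i ((Finset.mem_union.1 hi).resolve_left hS)
    · intro h3
      refine ⟨Finset.mem_univ _, fun i hi => ?_, fun i hi => ?_⟩
      · have := h3 i (Finset.mem_union_left _ hi)
        simpa only [hi, if_true] using this
      · have := h3 i (Finset.mem_union_right _ hi)
        have hS : i ∉ S := fun h' => (Finset.disjoint_left.1 hST h') hi
        simpa only [hS, if_false] using this
  rw [h2, h1, hc]
  push_cast
  rfl

end Pool.Agent.H2.OAX
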