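import Pool.Agent.H2.OAX.Transitive

set_option autoImplicit false
set_option linter.unusedSectionVars false

/-!
# Even alphabets: arrays of index one with `n + m - 2` columns can be extended
-/

namespace Pool.Agent.H2.OAX

variable {W I A : Type} [Fintype W] [DecidableEq W] [Fintype I] [DecidableEq I]
  [Fintype A] [DecidableEq A]
variable {m : ℕ} {f : W → I → A}

/-- `g` is a further column for the words with the values `v` on `U` -/
def Ext (m : ℕ) (f : W → I → A) (U : Finset I) (v : I → A) (g : W → A) : Prop :=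
  (∀ w₁ w₂, (∀ i ∈ U, f w₁ i = v i) → (∀ i ∈ U, f w₂ i = v i) → (agr f w₁ w₂).card + 1 = m →
    g w₁ ≠ g w₂) ∧
  (∀ w₁ w₂, (∀ i ∈ U, f w₁ i = v i) → (∀ i ∈ U, f w₂ i = v i) → (agr f w₁ w₂).card + 2 = m →
    g w₁ = g w₂)

theorem sub_agr {U : Finset I} {v : I → A} {w₁ w₂ : W} (h1 : ∀ i ∈ U, f w₁ i = v i)
    (h2 : ∀ i ∈ U, f w₂ i = v i) : U ⊆ agr f w₁ w₂ := by
  intro i hi
  rw [mem_agr, h1 i hi, h2 i hi]

/-- tangent neighbours on one hyperplane lie in one class -/
theorem nb_unique (h : OA m f) (hk : Fintype.card I + 2 = Fintype.card A + m)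
    (hn : 2 ≤ Fintype.card A) (heven : Fintype.card A % 2 = 0) (U : Finset I) (v : I → A)
    (i₀ : I) (hi₀ : i₀ ∉ U) (a₀ : A) (g' : W → A)
    (hg' : Ext m f (insert i₀ U) (Function.update v i₀ a₀) g') (w : W)
    (hw : ∀ i ∈ U, f w i = v i) (hwa : f w i₀ ≠ a₀) :
    ∀ (s : ℕ) (w₁ w₂ : W), (agr f w w₁ \ agr f w w₂).card = s →
      f w₁ i₀ = a₀ → U ⊆ agr f w w₁ → (agr f w w₁).card + 2 = m →
      f w₂ i₀ = a₀ → U ⊆ agr f w w₂ → (agr f w w₂).card + 2 = m → g' w₁ = g' w₂ := by
  classical
  have hU' : ∀ w' : W, f w' i₀ = a₀ → U ⊆ agr f w w' →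
      ∀ i ∈ insert i₀ U, f w' i = Function.update v i₀ a₀ i := by
    intro w' h1 h2 i hi
    rcases Finset.mem_insert.1 hi with rfl | hi
    · rw [Function.update_self]; exact h1
    · rw [Function.update_of_ne (ne_of_mem_of_not_mem hi hi₀), ← hw i hi]
      exact (mem_agr.1 (h2 hi)).symm
  have hni : ∀ w' : W, f w' i₀ = a₀ → i₀ ∉ agr f w w' := by
    intro w' h1 h2
    exact hwa (by rw [← h1]; exact mem_agr.1 h2)
  intro s
  induction s with
  | zero =>
    intro w₁ w₂ hs h1 h2 h3 h4 h5 h6
    have h7 : agr f w w₁ ⊆ agr f w w₂ := by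
      rw [Finset.card_eq_zero, Finset.sdiff_eq_empty_iff_subset] at hs
      exact hs
    have h8 : agr f w w₁ = agr f w w₂ := Finset.eq_of_subset_of_card_le h7 (by omega)
    obtain ⟨u, -, hu⟩ := P1 h hk hn w (agr f w w₂) h6 i₀ (hni w₂ h4) a₀ (Ne.symm hwa)
    rw [hu w₁ ⟨h1, h8⟩, hu w₂ ⟨h4, rfl⟩]
  | succ s ih =>
    intro w₁ w₂ hs h1 h2 h3 h4 h5 h6
    obtain ⟨x, hx⟩ : (agr f w w₁ \ agr f w w₂).Nonempty := by
      rw [← Finset.card_pos]; omega
    have hcc : (agr f w w₂ \ agr f w w₁).card = s + 1 := by
      have h7 := Finset.card_sdiff_add_card_inter (agr f w w₁) (agr f w w₂)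
      have h8 := Finset.card_sdiff_add_card_inter (agr f w w₂) (agr f w w₁)
      rw [Finset.inter_comm] at h8
      omega
    obtain ⟨y, hy⟩ : (agr f w w₂ \ agr f w w₁).Nonempty := by
      rw [← Finset.card_pos]; omega
    rw [Finset.mem_sdiff] at hx hy
    set R : Finset I := insert y ((agr f w w₁).erase x) with hR
    have hyR : y ∉ (agr f w w₁).erase x := fun h' => hy.2 (Finset.mem_of_mem_erase h')
    have hRc : R.card + 2 = m := by
      rw [hR, Finset.card_insert_of_notMem hyR, Finset.card_erase_of_mem hx.1]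
      have : 0 < (agr f w w₁).card := Finset.card_pos.2 ⟨x, hx.1⟩
      omega
    have hRi : i₀ ∉ R := by
      rw [hR, Finset.mem_insert]
      push Not
      exact ⟨fun h' => hni w₂ h4 (h' ▸ hy.1), fun h' => hni w₁ h1 (Finset.mem_of_mem_erase h')⟩
    obtain ⟨w₃, ⟨h7, h8⟩, -⟩ := P1 h hk hn w R hRc i₀ hRi a₀ (Ne.symm hwa)
    have hU3 : U ⊆ agr f w w₃ := by
      rw [h8, hR]
      intro t ht
      have htx : t ≠ x := by
        rintro rfl
        exact hx.2 (h5 ht)
      exact Finset.mem_insert_of_mem (Finset.mem_erase.2 ⟨htx, h2 ht⟩)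
    have hint : agr f w w₁ ∩ agr f w w₃ = (agr f w w₁).erase x := by
      rw [h8, hR]
      ext t
      rw [Finset.mem_inter, Finset.mem_insert, Finset.mem_erase]
      constructor
      · rintro ⟨h9, rfl | h9'⟩
        · exact absurd h9 hy.2
        · exact h9'
      · intro h9
        exact ⟨h9.2, Or.inr h9⟩
    have h10 : (agr f w₁ w₃).card + 2 = m := by
      apply tr_one h hk hn heven h3 (by rw [h8]; exact hRc)
      rw [hint, Finset.card_erase_of_mem hx.1]
      have : 0 < (agr f w w₁).card := Finset.card_pos.2 ⟨x, hx.1⟩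
      omega
    have h11 : g' w₁ = g' w₃ := hg'.2 w₁ w₃ (hU' w₁ h1 h2) (hU' w₃ h7 hU3) h10
    rw [h11]
    apply ih w₃ w₂ _ h7 hU3 (by rw [h8]; exact hRc) h4 h5 h6
    have h12 : agr f w w₃ \ agr f w w₂ = (agr f w w₁ \ agr f w w₂).erase x := by
      rw [h8, hR]
      ext t
      rw [Finset.mem_sdiff, Finset.mem_insert, Finset.mem_erase, Finset.mem_erase,
        Finset.mem_sdiff]
      constructor
      · rintro ⟨rfl | h13, h14⟩
        · exact absurd hy.1 h14
        · exact ⟨h13.1, h13.2, h14⟩
      · rintro ⟨h13, h14, h15⟩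
        exact ⟨Or.inr ⟨h13, h14⟩, h15⟩
    rw [h12, Finset.card_erase_of_mem (Finset.mem_sdiff.2 hx), hs]
    rfl

/-- **The extension**, for the words with prescribed values on `U`. -/
theorem exists_ext (h : OA m f) (hk : Fintype.card I + 2 = Fintype.card A + m)
    (hn : 2 ≤ Fintype.card A) (heven : Fintype.card A % 2 = 0) :
    ∀ (t : ℕ) (U : Finset I) (v : I → A), U.card + t + 1 = m → ∃ g, Ext m f U v g := by
  classical
  intro t
  induction t with
  | zero =>
    intro U v hU
    obtain ⟨j, hj⟩ : ∃ j, j ∉ U := by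
      by_contra hcon
      push Not at hcon
      have : U = Finset.univ := Finset.eq_univ_iff_forall.2 hcon
      rw [this, Finset.card_univ] at hU
      omega
    refine ⟨fun w => f w j, ?_, ?_⟩
    · intro w₁ w₂ h1 h2 h3 h4
      have h5 : U = agr f w₁ w₂ := Finset.eq_of_subset_of_card_le (sub_agr h1 h2) (by omega)
      apply hj
      rw [h5]
      exact mem_agr.2 h4
    · intro w₁ w₂ h1 h2 h3
      have h5 := Finset.card_le_card (sub_agr h1 h2)
      omega
  | succ t ih =>
    intro U v hU
    obtain ⟨i₀, hi₀⟩ : ∃ j, j ∉ U := by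
      by_contra hcon
      push Not at hcon
      have : U = Finset.univ := Finset.eq_univ_iff_forall.2 hcon
      rw [this, Finset.card_univ] at hU
      omega
    obtain ⟨a₀⟩ : Nonempty A := Fintype.card_pos_iff.1 (by omega)
    obtain ⟨g', hg'⟩ := ih (insert i₀ U) (Function.update v i₀ a₀)
      (by rw [Finset.card_insert_of_notMem hi₀]; omega)
    have hU' : ∀ w : W, (∀ i ∈ U, f w i = v i) → f w i₀ = a₀ →
        ∀ i ∈ insert i₀ U, f w i = Function.update v i₀ a₀ i := by
      intro w h1 h2 i hi
      rcases Finset.mem_insert.1 hi with rfl | hi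
      · rw [Function.update_self]; exact h2
      · rw [Function.update_of_ne (ne_of_mem_of_not_mem hi hi₀)]
        exact h1 i hi
    -- neighbours
    have hex : ∀ w : W, f w i₀ ≠ a₀ → ∃ w', f w' i₀ = a₀ ∧ U ⊆ agr f w w' ∧
        (agr f w w').card + 2 = m := by
      intro w hw
      obtain ⟨R, hR1, hR2, hR3⟩ := Finset.exists_subsuperset_card_eq (s := U)
        (t := Finset.univ.erase i₀) (n := m - 2)
        (fun i hi => Finset.mem_erase.2 ⟨ne_of_mem_of_not_mem hi hi₀, Finset.mem_univ _⟩)
        (by omega) (by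
          rw [Finset.card_erase_of_mem (Finset.mem_univ _), Finset.card_univ]; omega)
      obtain ⟨w', ⟨h1, h2⟩, -⟩ := P1 h hk hn w R (by omega) i₀
        (fun h' => Finset.ne_of_mem_erase (hR2 h') rfl) a₀ (Ne.symm hw)
      exact ⟨w', h1, by rw [h2]; exact hR1, by rw [h2]; omega⟩
    by_cases hWne : Nonempty W
    swap
    · exact ⟨fun _ => a₀, fun w₁ => absurd ⟨w₁⟩ hWne, fun w₁ => absurd ⟨w₁⟩ hWne⟩
    choose! p hp using hex
    obtain ⟨g, hg⟩ : ∃ g : W → A, ∀ w, g w = if f w i₀ = a₀ then g' w else g' (p w) :=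
      ⟨_, fun _ => rfl⟩
    have hG0 : ∀ w, f w i₀ = a₀ → g w = g' w := by
      intro w hw
      rw [hg, if_pos hw]
    have hG1 : ∀ w w₁, (∀ i ∈ U, f w i = v i) → f w i₀ ≠ a₀ → f w₁ i₀ = a₀ →
        U ⊆ agr f w w₁ → (agr f w w₁).card + 2 = m → g w = g' w₁ := by
      intro w w₁ h1 h2 h3 h4 h5
      rw [hg, if_neg h2]
      obtain ⟨h6, h7, h8⟩ := hp w h2
      exact nb_unique h hk hn heven U v i₀ hi₀ a₀ g' hg' w h1 h2 _ (p w) w₁ rfl h6 h7 h8 h3 h4 h5
    -- tangent words are in the same class
    have hB : ∀ w₁ w₂, (∀ i ∈ U, f w₁ i = v i) → (∀ i ∈ U, f w₂ i = v i) →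
        (agr f w₁ w₂).card + 2 = m → g w₁ = g w₂ := by
      intro w₁ w₂ h1 h2 h3
      by_cases ha1 : f w₁ i₀ = a₀
      · by_cases ha2 : f w₂ i₀ = a₀
        · rw [hG0 w₁ ha1, hG0 w₂ ha2]
          exact hg'.2 w₁ w₂ (hU' w₁ h1 ha1) (hU' w₂ h2 ha2) h3
        · rw [hG0 w₁ ha1]
          symm
          exact hG1 w₂ w₁ h2 ha2 ha1 (sub_agr h2 h1) (by rw [agr_comm]; exact h3)
      · by_cases ha2 : f w₂ i₀ = a₀
        · rw [hG0 w₂ ha2]
          exact hG1 w₁ w₂ h1 ha1 ha2 (sub_agr h1 h2) h3
        · by_cases heq : f w₁ i₀ = f w₂ i₀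
          · -- `i₀` is one of the coordinates of agreement
            obtain ⟨j, hj⟩ : ∃ j, j ∉ agr f w₁ w₂ := by
              by_contra hcon
              push Not at hcon
              have : agr f w₁ w₂ = Finset.univ := Finset.eq_univ_iff_forall.2 hcon
              rw [this, Finset.card_univ] at h3
              omega
            have hi0 : i₀ ∈ agr f w₁ w₂ := mem_agr.2 heq
            have hji : i₀ ≠ j := fun h' => hj (h' ▸ hi0)
            set R : Finset I := insert j ((agr f w₁ w₂).erase i₀) with hR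
            have hjR : j ∉ (agr f w₁ w₂).erase i₀ := fun h' => hj (Finset.mem_of_mem_erase h')
            have hpos : 0 < (agr f w₁ w₂).card := Finset.card_pos.2 ⟨_, hi0⟩
            have hRc : R.card + 2 = m := by
              rw [hR, Finset.card_insert_of_notMem hjR, Finset.card_erase_of_mem hi0]
              omega
            obtain ⟨w₃, ⟨h4, h5⟩, -⟩ := P1 h hk hn w₁ R hRc i₀ (by
              rw [hR, Finset.mem_insert]
              push Not
              exact ⟨hji, Finset.notMem_erase _ _⟩) a₀ (Ne.symm ha1)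
            have hU3 : U ⊆ agr f w₁ w₃ := by
              rw [h5, hR]
              intro t ht
              exact Finset.mem_insert_of_mem (Finset.mem_erase.2
                ⟨ne_of_mem_of_not_mem ht hi₀, sub_agr h1 h2 ht⟩)
            have hint : agr f w₁ w₂ ∩ agr f w₁ w₃ = (agr f w₁ w₂).erase i₀ := by
              rw [h5, hR]
              ext t
              rw [Finset.mem_inter, Finset.mem_insert, Finset.mem_erase]
              constructor
              · rintro ⟨h9, rfl | h9'⟩
                · exact absurd h9 hj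
                · exact h9'
              · intro h9
                exact ⟨h9.2, Or.inr h9⟩
            have h6 : (agr f w₂ w₃).card + 2 = m := by
              apply tr_one h hk hn heven h3 (by rw [h5]; exact hRc)
              rw [hint, Finset.card_erase_of_mem hi0]
              omega
            have h7 : ∀ i ∈ U, f w₃ i = v i := by
              intro i hi
              rw [← h1 i hi]
              exact (mem_agr.1 (hU3 hi)).symm
            rw [hG1 w₁ w₃ h1 ha1 h4 hU3 (by rw [h5]; exact hRc),
              hG1 w₂ w₃ h2 ha2 h4 (sub_agr h2 h7) h6]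
          · -- `i₀` is not one of them
            obtain ⟨w₃, ⟨h4, h5⟩, -⟩ := P1 h hk hn w₁ (agr f w₁ w₂) h3 i₀
              (fun h' => heq (mem_agr.1 h')) a₀ (Ne.symm ha1)
            have hne : w₂ ≠ w₃ := by
              rintro rfl
              exact ha2 h4
            have h6 := tr_same h hk hn h3 h5 hne
            have h7 : ∀ i ∈ U, f w₃ i = v i := by
              intro i hi
              rw [← h1 i hi]
              have : i ∈ agr f w₁ w₃ := by rw [h5]; exact sub_agr h1 h2 hi
              exact (mem_agr.1 this).symm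
            rw [hG1 w₁ w₃ h1 ha1 h4 (sub_agr h1 h7) (by rw [h5]; exact h3),
              hG1 w₂ w₃ h2 ha2 h4 (sub_agr h2 h7) (by rw [h6]; exact h3)]
    -- secant words with a common value at `i₀`
    have hA0 : ∀ w₁ w₂, (∀ i ∈ U, f w₁ i = v i) → (∀ i ∈ U, f w₂ i = v i) →
        (agr f w₁ w₂).card + 1 = m → f w₁ i₀ = f w₂ i₀ → g w₁ ≠ g w₂ := by
      intro w₁ w₂ h1 h2 h3 heq
      have hi0 : i₀ ∈ agr f w₁ w₂ := mem_agr.2 heq
      by_cases ha1 : f w₁ i₀ = a₀
      · have ha2 : f w₂ i₀ = a₀ := by rw [← heq]; exact ha1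
        rw [hG0 w₁ ha1, hG0 w₂ ha2]
        exact hg'.1 w₁ w₂ (hU' w₁ h1 ha1) (hU' w₂ h2 ha2) h3
      · have ha2 : f w₂ i₀ ≠ a₀ := by rw [← heq]; exact ha1
        set R : Finset I := (agr f w₁ w₂).erase i₀ with hR
        have hpos : 0 < (agr f w₁ w₂).card := Finset.card_pos.2 ⟨_, hi0⟩
        have hRc : R.card + 2 = m := by
          rw [hR, Finset.card_erase_of_mem hi0]
          omega
        have hRi : i₀ ∉ R := Finset.notMem_erase _ _
        have hUR : U ⊆ R := by
          intro t ht
          exact Finset.mem_erase.2 ⟨ne_of_mem_of_not_mem ht hi₀, sub_agr h1 h2 ht⟩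
        obtain ⟨u₁, ⟨h4, h5⟩, -⟩ := P1 h hk hn w₁ R hRc i₀ hRi a₀ (Ne.symm ha1)
        obtain ⟨u₂, ⟨h6, h7⟩, -⟩ := P1 h hk hn w₂ R hRc i₀ hRi a₀ (Ne.symm ha2)
        have hv1 : ∀ i ∈ U, f u₁ i = v i := by
          intro i hi
          rw [← h1 i hi]
          have : i ∈ agr f w₁ u₁ := by rw [h5]; exact hUR hi
          exact (mem_agr.1 this).symm
        have hv2 : ∀ i ∈ U, f u₂ i = v i := by
          intro i hi
          rw [← h2 i hi]
          have : i ∈ agr f w₂ u₂ := by rw [h7]; exact hUR hi
          exact (mem_agr.1 this).symm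
        have hne : u₁ ≠ u₂ := by
          rintro rfl
          have hw : w₁ ≠ w₂ := by
            rintro rfl
            have : agr f w₁ w₁ = Finset.univ := by
              ext i; rw [mem_agr]; simp
            rw [this, Finset.card_univ] at h3
            omega
          have h8 := tr_same (c := u₁) (d := w₁) (e := w₂) h hk hn
            (by rw [agr_comm, h5]; exact hRc)
            (by rw [agr_comm u₁ w₂, agr_comm u₁ w₁, h5, h7]) hw
          rw [agr_comm u₁ w₁, h5] at h8
          rw [h8] at h3
          omega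
        have h9 : (agr f u₁ u₂).card + 1 = m := by
          have h10 := h.card_agr_lt hne
          have h11 : insert i₀ R ⊆ agr f u₁ u₂ := by
            intro t ht
            rw [mem_agr]
            rcases Finset.mem_insert.1 ht with rfl | ht
            · rw [h4, h6]
            · have h12 : t ∈ agr f w₁ u₁ := by rw [h5]; exact ht
              have h13 : t ∈ agr f w₂ u₂ := by rw [h7]; exact ht
              rw [← mem_agr.1 h12, ← mem_agr.1 h13]
              exact mem_agr.1 (Finset.mem_of_mem_erase ht)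
          have h12 := Finset.card_le_card h11
          rw [Finset.card_insert_of_notMem hRi] at h12
          omega
        rw [hG1 w₁ u₁ h1 ha1 h4 (sub_agr h1 hv1) (by rw [h5]; exact hRc),
          hG1 w₂ u₂ h2 ha2 h6 (sub_agr h2 hv2) (by rw [h7]; exact hRc)]
        exact hg'.1 u₁ u₂ (hU' u₁ hv1 h4) (hU' u₂ hv2 h6) h9
    refine ⟨g, ?_, hB⟩
    intro w₁ w₂ h1 h2 h3
    by_cases heq : f w₁ i₀ = f w₂ i₀
    · exact hA0 w₁ w₂ h1 h2 h3 heq
    · obtain ⟨R, hR1, hR2, hR3⟩ := Finset.exists_subsuperset_card_eq (s := U)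
        (t := agr f w₁ w₂) (n := m - 2) (sub_agr h1 h2) (by omega) (by omega)
      have hRi : i₀ ∉ R := fun h' => heq (mem_agr.1 (hR2 h'))
      obtain ⟨u, ⟨h4, h5⟩, -⟩ := P1 h hk hn w₁ R (by omega) i₀ hRi (f w₂ i₀) (Ne.symm heq)
      have hv : ∀ i ∈ U, f u i = v i := by
        intro i hi
        rw [← h1 i hi]
        have : i ∈ agr f w₁ u := by rw [h5]; exact hR1 hi
        exact (mem_agr.1 this).symm
      have hne : u ≠ w₂ := by
        rintro rfl
        rw [h5] at h3
        omega
      have h6 : (agr f u w₂).card + 1 = m := by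
        have h10 := h.card_agr_lt hne
        have h11 : insert i₀ R ⊆ agr f u w₂ := by
          intro t ht
          rw [mem_agr]
          rcases Finset.mem_insert.1 ht with rfl | ht
          · exact h4
          · have h12 : t ∈ agr f w₁ u := by rw [h5]; exact ht
            rw [← mem_agr.1 h12]
            exact mem_agr.1 (hR2 ht)
        have h12 := Finset.card_le_card h11
        rw [Finset.card_insert_of_notMem hRi] at h12
        omega
      rw [hB w₁ u h1 hv (by rw [h5]; omega)]
      exact hA0 u w₂ hv h2 h6 h4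

/-- **Extension theorem.** If the size `n` of the alphabet is even, every array of index one and
strength `m ≥ 1` with `n + m - 2` columns has a further column. -/
theorem extend (h : OA m f) (hm : 1 ≤ m) (hk : Fintype.card I + 2 = Fintype.card A + m)
    (hn : 2 ≤ Fintype.card A) (heven : Fintype.card A % 2 = 0) :
    ∃ g : W → A, OA m (fun w (o : Option I) => o.elim (g w) (f w)) := by
  classical
  obtain ⟨a₀⟩ : Nonempty A := Fintype.card_pos_iff.1 (by omega)
  obtain ⟨g, hg⟩ := exists_ext h hk hn heven (m - 1) ∅ (fun _ => a₀) (by simp; omega)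
  refine ⟨g, ?_⟩
  intro S hS v
  set T : Finset I := Finset.univ.filter (fun i => some i ∈ S) with hT
  have hTm : ∀ i, i ∈ T ↔ some i ∈ S := by intro i; rw [hT]; simp
  by_cases hnone : none ∈ S
  · have hTc : T.card + 1 = m := by
      have : S = insert none (T.map ⟨some, Option.some_injective I⟩) := by
        ext o
        cases o with
        | none => simp [hnone]
        | some i => simp [hTm]
      rw [this, Finset.card_insert_of_notMem (by simp), Finset.card_map] at hS
      exact hS
    -- `g` is injective on the words with the prescribed values on `T`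
    have hLc : (fib f T (fun i => v (some i))).card = Fintype.card A := by
      rw [h.card_fib (by omega) _ (by omega), show m - T.card = 1 by omega, pow_one]
    have hinj : Set.InjOn g (fib f T (fun i => v (some i)) : Set W) := by
      intro w₁ hw₁ w₂ hw₂ he
      have hw₁ := mem_fib.1 (Finset.mem_coe.1 hw₁)
      have hw₂ := mem_fib.1 (Finset.mem_coe.1 hw₂)
      by_contra hne
      have h1 := h.card_agr_lt hne
      have h2 := Finset.card_le_card (sub_agr hw₁ hw₂)
      exact hg.1 w₁ w₂ (by simp) (by simp) (by omega) he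
    have himg : (fib f T (fun i => v (some i))).image g = Finset.univ := by
      apply Finset.eq_univ_of_card
      rw [Finset.card_image_of_injOn hinj, hLc]
    have hv : v none ∈ (fib f T (fun i => v (some i))).image g := by
      rw [himg]; exact Finset.mem_univ _
    obtain ⟨w, hw, hgw⟩ := Finset.mem_image.1 hv
    refine ⟨w, ?_, ?_⟩
    · intro o ho
      cases o with
      | none => exact hgw
      | some i => exact mem_fib.1 hw i ((hTm i).2 ho)
    · intro w' hw'
      apply hinj
      · rw [Finset.mem_coe, mem_fib]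
        intro i hi
        exact hw' (some i) ((hTm i).1 hi)
      · exact Finset.mem_coe.2 hw
      · rw [hgw]
        exact hw' none hnone
  · have hTc : T.card = m := by
      have : S = T.map ⟨some, Option.some_injective I⟩ := by
        ext o
        cases o with
        | none => simp [hnone]
        | some i => simp [hTm]
      rw [this, Finset.card_map] at hS
      exact hS
    obtain ⟨w, hw, hu⟩ := h T hTc (fun i => v (some i))
    refine ⟨w, ?_, ?_⟩
    · intro o ho
      cases o with
      | none => exact absurd ho hnone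
      | some i => exact hw i ((hTm i).2 ho)
    · intro w' hw'
      apply hu
      intro i hi
      exact hw' (some i) ((hTm i).1 hi)

end Pool.Agent.H2.OAX
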