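import Pool.Agent.H2.OAX.Count

set_option autoImplicit false
set_option linter.unusedSectionVars false

/-!
# Strength four with `n + 3` columns
-/

namespace Pool.Agent.H2.OAX

variable {W I A : Type} [Fintype W] [DecidableEq W] [Fintype I] [DecidableEq I]
  [Fintype A] [DecidableEq A]
variable {m : ℕ} {f : W → I → A}

/-- the number of words which agree with `c` on `S` and with `c'` on `T`, as a sum -/
def G (f : W → I → A) (c c' : W) (S T : Finset I) : ℤ :=
  ∑ w, if (∀ i ∈ S, f w i = f c i) ∧ (∀ i ∈ T, f w i = f c' i) then 1 else 0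

theorem G_eq (h : OA m f) (hk : m ≤ Fintype.card I) (c c' : W) (S T : Finset I)
    (hST : Disjoint S T) (hm : S.card + T.card ≤ m) :
    G f c c' S T = (Fintype.card A : ℤ) ^ (m - (S.card + T.card)) := by
  rw [← count2 h hk c c' S T hST hm, G, Finset.card_filter]
  push_cast
  rfl

theorem G_zero (c c' : W) (S T : Finset I) (i : I) (hS : i ∈ S) (hT : i ∈ T)
    (hi : f c i ≠ f c' i) : G f c c' S T = 0 := by
  rw [G]
  apply Finset.sum_eq_zero
  intro w _
  rw [if_neg]
  rintro ⟨h1, h2⟩
  exact hi ((h1 i hS).symm.trans (h2 i hT))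

theorem term2 (c c' w : W) (x a b : I) :
    dl f c w x * dl f c w a * dl f c' w b =
      if (∀ i ∈ ({x, a} : Finset I), f w i = f c i) ∧
        (∀ i ∈ ({b} : Finset I), f w i = f c' i) then 1 else 0 := by
  unfold dl
  simp only [Finset.mem_insert, Finset.mem_singleton, forall_eq_or_imp, forall_eq]
  split_ifs <;> simp_all

theorem term3 (c c' w : W) (x y a b : I) :
    dl f c w x * dl f c w y * dl f c w a * dl f c' w b =
      if (∀ i ∈ ({x, y, a} : Finset I), f w i = f c i) ∧
        (∀ i ∈ ({b} : Finset I), f w i = f c' i) then 1 else 0 := by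
  unfold dl
  simp only [Finset.mem_insert, Finset.mem_singleton, forall_eq_or_imp, forall_eq]
  split_ifs <;> simp_all

theorem term4 (c c' w : W) (a a' b b' : I) :
    (dl f c w a * dl f c w a') * (dl f c' w b * dl f c' w b') =
      if (∀ i ∈ ({a, a'} : Finset I), f w i = f c i) ∧
        (∀ i ∈ ({b, b'} : Finset I), f w i = f c' i) then 1 else 0 := by
  unfold dl
  simp only [Finset.mem_insert, Finset.mem_singleton, forall_eq_or_imp, forall_eq]
  split_ifs <;> simp_all

theorem sum_one_two (K : Finset I) (F : I → I → ℤ) (N : ℤ)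
    (h0 : ∀ a ∈ K, F a a = 0) (h1 : ∀ a ∈ K, ∀ b ∈ K, a ≠ b → F a b = N) :
    ∑ a ∈ K, ∑ b ∈ K, F a b = (K.card : ℤ) * ((K.card : ℤ) - 1) * N := by
  have h2 : ∀ a ∈ K, ∑ b ∈ K, F a b = ((K.card : ℤ) - 1) * N := by
    intro a ha
    rw [← Finset.add_sum_erase K _ ha, h0 a ha, zero_add,
      Finset.sum_congr rfl (fun b hb => h1 a ha b (Finset.mem_of_mem_erase hb)
        (Finset.ne_of_mem_erase hb).symm), Finset.sum_const, Finset.card_erase_of_mem ha,
      nsmul_eq_mul]
    have : 0 < K.card := Finset.card_pos.2 ⟨a, ha⟩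
    rw [Nat.cast_sub (by omega)]
    norm_num
  rw [Finset.sum_congr rfl h2, Finset.sum_const, nsmul_eq_mul]
  ring

theorem card_offDiag_int (K : Finset I) :
    (K.offDiag.card : ℤ) = (K.card : ℤ) * ((K.card : ℤ) - 1) := by
  rw [Finset.offDiag_card]
  have : K.card ≤ K.card * K.card := by nlinarith [Nat.zero_le K.card]
  rw [Nat.cast_sub this]
  push_cast
  ring

/-- the first moment -/
theorem S2_eq (h : OA 4 f) (hk : 4 ≤ Fintype.card I) (c c' : W) (X K : Finset I)
    (hXK : Disjoint X K) (hK : ∀ i ∈ K, f c i ≠ f c' i) :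
    ∑ w, (∑ x ∈ X, dl f c w x) * (∑ a ∈ K, dl f c w a) * (∑ b ∈ K, dl f c' w b) =
      (X.card : ℤ) * ((K.card : ℤ) * ((K.card : ℤ) - 1) * (Fintype.card A : ℤ)) := by
  have h1 : ∀ w, (∑ x ∈ X, dl f c w x) * (∑ a ∈ K, dl f c w a) * (∑ b ∈ K, dl f c' w b) =
      ∑ x ∈ X, ∑ a ∈ K, ∑ b ∈ K, dl f c w x * dl f c w a * dl f c' w b := by
    intro w
    rw [Finset.sum_mul_sum, Finset.sum_mul]
    refine Finset.sum_congr rfl (fun x _ => ?_)
    rw [Finset.sum_mul_sum]
  rw [Finset.sum_congr rfl (fun w _ => h1 w), Finset.sum_comm]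
  have h2 : ∀ x ∈ X, ∑ w, ∑ a ∈ K, ∑ b ∈ K, dl f c w x * dl f c w a * dl f c' w b =
      (K.card : ℤ) * ((K.card : ℤ) - 1) * (Fintype.card A : ℤ) := by
    intro x hx
    rw [Finset.sum_comm]
    have h3 : ∀ a ∈ K, ∑ w, ∑ b ∈ K, dl f c w x * dl f c w a * dl f c' w b =
        ∑ b ∈ K, G f c c' {x, a} {b} := by
      intro a _
      rw [Finset.sum_comm]
      refine Finset.sum_congr rfl (fun b _ => ?_)
      rw [G]
      exact Finset.sum_congr rfl (fun w _ => term2 c c' w x a b)
    rw [Finset.sum_congr rfl h3]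
    apply sum_one_two
    · intro a ha
      exact G_zero c c' _ _ a (by simp) (by simp) (hK a ha)
    · intro a ha b hb hab
      have hxa : x ≠ a := fun h' => (Finset.disjoint_left.1 hXK hx) (h' ▸ ha)
      have hxb : x ≠ b := fun h' => (Finset.disjoint_left.1 hXK hx) (h' ▸ hb)
      rw [G_eq h hk c c' {x, a} {b} (by simp [hxb.symm, hab.symm])
        (by rw [Finset.card_pair hxa, Finset.card_singleton]; norm_num),
        Finset.card_pair hxa, Finset.card_singleton]
      norm_num
  rw [Finset.sum_congr rfl h2, Finset.sum_const, nsmul_eq_mul]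

/-- the second moment -/
theorem S3_eq (h : OA 4 f) (hk : 4 ≤ Fintype.card I) (c c' : W) (X K : Finset I)
    (hXK : Disjoint X K) (hK : ∀ i ∈ K, f c i ≠ f c' i) :
    ∑ w, ((∑ x ∈ X, dl f c w x) ^ 2 - ∑ x ∈ X, dl f c w x) * (∑ a ∈ K, dl f c w a) *
      (∑ b ∈ K, dl f c' w b) =
      (X.card : ℤ) * ((X.card : ℤ) - 1) * ((K.card : ℤ) * ((K.card : ℤ) - 1)) := by
  have h1 : ∀ w, ((∑ x ∈ X, dl f c w x) ^ 2 - ∑ x ∈ X, dl f c w x) * (∑ a ∈ K, dl f c w a) *
      (∑ b ∈ K, dl f c' w b) =
      ∑ z ∈ X.offDiag, ∑ a ∈ K, ∑ b ∈ K,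
        dl f c w z.1 * dl f c w z.2 * dl f c w a * dl f c' w b := by
    intro w
    rw [← sum_offDiag, Finset.sum_mul_sum, Finset.sum_mul]
    refine Finset.sum_congr rfl (fun x _ => ?_)
    rw [Finset.sum_mul_sum]
  rw [Finset.sum_congr rfl (fun w _ => h1 w), Finset.sum_comm]
  have h2 : ∀ z ∈ X.offDiag, ∑ w, ∑ a ∈ K, ∑ b ∈ K,
      dl f c w z.1 * dl f c w z.2 * dl f c w a * dl f c' w b =
      (K.card : ℤ) * ((K.card : ℤ) - 1) * 1 := by
    intro z hz
    obtain ⟨hz1, hz2, hz3⟩ := Finset.mem_offDiag.1 hz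
    rw [Finset.sum_comm]
    have h3 : ∀ a ∈ K, ∑ w, ∑ b ∈ K, dl f c w z.1 * dl f c w z.2 * dl f c w a * dl f c' w b =
        ∑ b ∈ K, G f c c' {z.1, z.2, a} {b} := by
      intro a _
      rw [Finset.sum_comm]
      refine Finset.sum_congr rfl (fun b _ => ?_)
      rw [G]
      exact Finset.sum_congr rfl (fun w _ => term3 c c' w z.1 z.2 a b)
    rw [Finset.sum_congr rfl h3]
    apply sum_one_two
    · intro a ha
      exact G_zero c c' _ _ a (by simp) (by simp) (hK a ha)
    · intro a ha b hb hab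
      have h1a : z.1 ≠ a := fun h' => (Finset.disjoint_left.1 hXK hz1) (h' ▸ ha)
      have h1b : z.1 ≠ b := fun h' => (Finset.disjoint_left.1 hXK hz1) (h' ▸ hb)
      have h2a : z.2 ≠ a := fun h' => (Finset.disjoint_left.1 hXK hz2) (h' ▸ ha)
      have h2b : z.2 ≠ b := fun h' => (Finset.disjoint_left.1 hXK hz2) (h' ▸ hb)
      have hc3 : ({z.1, z.2, a} : Finset I).card = 3 := Finset.card_eq_three.2
        ⟨z.1, z.2, a, hz3, h1a, h2a, rfl⟩
      rw [G_eq h hk c c' {z.1, z.2, a} {b} (by simp [h1b.symm, h2b.symm, hab.symm])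
        (by rw [hc3, Finset.card_singleton]), hc3, Finset.card_singleton]
      norm_num
  rw [Finset.sum_congr rfl h2, Finset.sum_const, nsmul_eq_mul, card_offDiag_int]
  ring

/-- the fourth moment -/
theorem S1_eq (h : OA 4 f) (hk : 4 ≤ Fintype.card I) (c c' : W) (K : Finset I)
    (hK : ∀ i ∈ K, f c i ≠ f c' i) :
    ∑ w, ((∑ a ∈ K, dl f c w a) ^ 2 - ∑ a ∈ K, dl f c w a) *
      ((∑ b ∈ K, dl f c' w b) ^ 2 - ∑ b ∈ K, dl f c' w b) =
      (K.card : ℤ) * ((K.card : ℤ) - 1) * (((K.card : ℤ) - 2) * ((K.card : ℤ) - 3)) := by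
  classical
  have h1 : ∀ w, ((∑ a ∈ K, dl f c w a) ^ 2 - ∑ a ∈ K, dl f c w a) *
      ((∑ b ∈ K, dl f c' w b) ^ 2 - ∑ b ∈ K, dl f c' w b) =
      ∑ z ∈ K.offDiag, ∑ z' ∈ K.offDiag,
        (dl f c w z.1 * dl f c w z.2) * (dl f c' w z'.1 * dl f c' w z'.2) := by
    intro w
    rw [← sum_offDiag, ← sum_offDiag, Finset.sum_mul_sum]
  rw [Finset.sum_congr rfl (fun w _ => h1 w), Finset.sum_comm]
  have h2 : ∀ z ∈ K.offDiag, ∑ w, ∑ z' ∈ K.offDiag,
      (dl f c w z.1 * dl f c w z.2) * (dl f c' w z'.1 * dl f c' w z'.2) =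
      ((K.card : ℤ) - 2) * ((K.card : ℤ) - 3) := by
    intro z hz
    obtain ⟨hz1, hz2, hz3⟩ := Finset.mem_offDiag.1 hz
    rw [Finset.sum_comm]
    have h3 : ∀ z' ∈ K.offDiag, ∑ w,
        (dl f c w z.1 * dl f c w z.2) * (dl f c' w z'.1 * dl f c' w z'.2) =
        if z' ∈ ((K.erase z.1).erase z.2).offDiag then 1 else 0 := by
      intro z' hz'
      obtain ⟨hz1', hz2', hz3'⟩ := Finset.mem_offDiag.1 hz'
      have h4 : ∑ w, (dl f c w z.1 * dl f c w z.2) * (dl f c' w z'.1 * dl f c' w z'.2) =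
          G f c c' {z.1, z.2} {z'.1, z'.2} := by
        rw [G]
        exact Finset.sum_congr rfl (fun w _ => term4 c c' w _ _ _ _)
      rw [h4]
      by_cases hcase : z'.1 = z.1 ∨ z'.1 = z.2 ∨ z'.2 = z.1 ∨ z'.2 = z.2
      · rw [if_neg]
        · rcases hcase with h5 | h5 | h5 | h5
          · exact G_zero c c' _ _ z.1 (by simp) (by simp [h5]) (hK _ hz1)
          · exact G_zero c c' _ _ z.2 (by simp) (by simp [h5]) (hK _ hz2)
          · exact G_zero c c' _ _ z.1 (by simp) (by simp [h5]) (hK _ hz1)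
          · exact G_zero c c' _ _ z.2 (by simp) (by simp [h5]) (hK _ hz2)
        · intro h6
          simp only [Finset.mem_offDiag, Finset.mem_erase] at h6
          tauto
      · push Not at hcase
        rw [if_pos]
        · rw [G_eq h hk c c' {z.1, z.2} {z'.1, z'.2}
            (by simp [hcase.1, hcase.2.1, hcase.2.2.1, hcase.2.2.2])
            (by rw [Finset.card_pair hz3, Finset.card_pair hz3']),
            Finset.card_pair hz3, Finset.card_pair hz3']
          norm_num
        · simp only [Finset.mem_offDiag, Finset.mem_erase]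
          tauto
    rw [Finset.sum_congr rfl h3, ← Finset.sum_filter, Finset.sum_const, nsmul_eq_mul, mul_one]
    have h5 : K.offDiag.filter (fun z' => z' ∈ ((K.erase z.1).erase z.2).offDiag) =
        ((K.erase z.1).erase z.2).offDiag := by
      ext z'
      simp only [Finset.mem_filter, Finset.mem_offDiag, Finset.mem_erase]
      tauto
    have h6 : (((K.erase z.1).erase z.2).card : ℤ) = (K.card : ℤ) - 2 := by
      have h7 : z.2 ∈ K.erase z.1 := Finset.mem_erase.2 ⟨hz3.symm, hz2⟩
      rw [Finset.card_erase_of_mem h7, Finset.card_erase_of_mem hz1]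
      have : 1 < K.card := Finset.one_lt_card.2 ⟨_, hz1, _, hz2, hz3⟩
      omega
    rw [h5, card_offDiag_int, h6]
    ring
  rw [Finset.sum_congr rfl h2, Finset.sum_const, nsmul_eq_mul, card_offDiag_int]

/-- **The congruence** for two words that agree on exactly `h` coordinates. -/
theorem cong36 (h : OA 4 f) (hk : Fintype.card I = Fintype.card A + 3)
    (hn : 1 ≤ Fintype.card A) {c c' : W} (hcc : c ≠ c') :
    (36 : ℤ) ∣ ((Fintype.card I : ℤ) - (agr f c c').card) *
        ((Fintype.card I : ℤ) - (agr f c c').card - 1) *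
      (((Fintype.card I : ℤ) - (agr f c c').card - 2) *
        ((Fintype.card I : ℤ) - (agr f c c').card - 3)
        - (agr f c c').card * (Fintype.card A : ℤ)
        + (agr f c c').card * ((agr f c c').card - 1)) := by
  classical
  set X : Finset I := agr f c c' with hX
  set K : Finset I := Xᶜ with hKd
  have hXK : Disjoint X K := disjoint_compl_right
  have hK : ∀ i ∈ K, f c i ≠ f c' i := by
    intro i hi h'
    rw [hKd, Finset.mem_compl, hX] at hi
    exact hi (mem_agr.2 h')
  have hKc : (K.card : ℤ) = (Fintype.card I : ℤ) - X.card := by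
    rw [hKd, Finset.card_compl, Nat.cast_sub (Finset.card_le_univ _)]
  have hunion : ∀ w : W, X ∩ agr f c w ∪ K ∩ agr f c w = agr f c w := by
    intro w
    rw [← Finset.union_inter_distrib_right, hKd, Finset.union_compl, Finset.univ_inter]
  have hdisj : ∀ v w : W, Disjoint (X ∩ agr f c v) (K ∩ agr f c' w) := by
    intro v w
    exact Finset.disjoint_of_subset_left Finset.inter_subset_left
      (Finset.disjoint_of_subset_right Finset.inter_subset_left hXK)
  have hl : ∀ w : W, X ∩ agr f c' w = X ∩ agr f c w := by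
    intro w
    ext i
    simp only [Finset.mem_inter, hX, mem_agr]
    constructor
    · rintro ⟨h1, h2⟩
      exact ⟨h1, h1.trans h2⟩
    · rintro ⟨h1, h2⟩
      exact ⟨h1, h1.symm.trans h2⟩
  have hkey : ∀ w : W, (36 : ℤ) ∣
      ((∑ a ∈ K, dl f c w a) ^ 2 - ∑ a ∈ K, dl f c w a) *
      ((∑ b ∈ K, dl f c' w b) ^ 2 - ∑ b ∈ K, dl f c' w b) -
      (∑ x ∈ X, dl f c w x) * (∑ a ∈ K, dl f c w a) * (∑ b ∈ K, dl f c' w b) +
      ((∑ x ∈ X, dl f c w x) ^ 2 - ∑ x ∈ X, dl f c w x) * (∑ a ∈ K, dl f c w a) *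
      (∑ b ∈ K, dl f c' w b) := by
    intro w
    rw [sum_dl, sum_dl, sum_dl]
    have hcA : (X ∩ agr f c w).card + (K ∩ agr f c w).card = (agr f c w).card := by
      rw [← Finset.card_union_of_disjoint (Finset.disjoint_of_subset_left
        Finset.inter_subset_left (Finset.disjoint_of_subset_right Finset.inter_subset_left hXK)),
        hunion]
    have hcB : (X ∩ agr f c w).card + (K ∩ agr f c' w).card = (agr f c' w).card := by
      rw [← hl w]
      rw [← Finset.card_union_of_disjoint (Finset.disjoint_of_subset_left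
        Finset.inter_subset_left (Finset.disjoint_of_subset_right Finset.inter_subset_left hXK)),
        ← Finset.union_inter_distrib_right, hKd, Finset.union_compl, Finset.univ_inter]
    by_cases hw : w = c
    · have hq : (K ∩ agr f c' w).card = 0 := by
        rw [Finset.card_eq_zero, Finset.eq_empty_iff_forall_notMem]
        intro i hi
        rw [Finset.mem_inter, mem_agr, hw] at hi
        exact hK i hi.1 hi.2.symm
      rw [hq]
      simp
    by_cases hw' : w = c'
    · have hp : (K ∩ agr f c w).card = 0 := by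
        rw [Finset.card_eq_zero, Finset.eq_empty_iff_forall_notMem]
        intro i hi
        rw [Finset.mem_inter, mem_agr, hw'] at hi
        exact hK i hi.1 hi.2
      rw [hp]
      simp
    have h1 := h.card_agr_lt (Ne.symm hw)
    have h2 := h.card_agr_lt (Ne.symm hw')
    have h3 : (agr f c w).card ≠ 2 := fun h' =>
      no_tangent h (by omega) hn c w (by rw [h'])
    have h4 : (agr f c' w).card ≠ 2 := fun h' =>
      no_tangent h (by omega) hn c' w (by rw [h'])
    generalize (X ∩ agr f c w).card = l at *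
    generalize (K ∩ agr f c w).card = p at *
    generalize (K ∩ agr f c' w).card = q at *
    generalize (agr f c w).card = s at *
    generalize (agr f c' w).card = t at *
    subst hcA
    subst hcB
    have hl4 : l < 4 := by omega
    have hp4 : p < 4 := by omega
    have hq4 : q < 4 := by omega
    interval_cases l <;> interval_cases p <;> interval_cases q <;>
      first | (exfalso; omega) | norm_num
  have hsum := Finset.dvd_sum (s := (Finset.univ : Finset W)) (fun w _ => hkey w)
  rw [Finset.sum_add_distrib, Finset.sum_sub_distrib,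
    S1_eq h (by omega) c c' K hK, S2_eq h (by omega) c c' X K hXK hK,
    S3_eq h (by omega) c c' X K hXK hK, hKc] at hsum
  refine (dvd_of_eq ?_).trans (hsum.trans (dvd_of_eq ?_))
  · rfl
  · ring

end Pool.Agent.H2.OAX
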