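import Pool.Agent.H2.OAX.Three
import Pool.Agent.H2.OAX.Extend
import Pool.Graph.R_seed8.H72R3.VC.Prime

set_option autoImplicit false
set_option linter.unusedSectionVars false

/-!
# Arrays of index one and even order with `n + m - 2` columns
-/

namespace Pool.Agent.H2.OAX

section
variable {W I A : Type} [Fintype W] [DecidableEq W] [Fintype I] [DecidableEq I]
  [Fintype A] [DecidableEq A]
variable {m : ℕ} {f : W → I → A}

/-- leaving out a column -/
theorem OA.drop (h : OA m f) (a₀ : A) (i₀ : I) :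
    OA m (fun (w : W) (i : {i // i ≠ i₀}) => f w i.1) := by
  intro S hS v
  obtain ⟨w, hw, hu⟩ := h (S.map (Function.Embedding.subtype _)) (by rw [Finset.card_map, hS])
    (fun i => if hi : i ≠ i₀ then v ⟨i, hi⟩ else a₀)
  have key : ∀ w, (∀ i ∈ S.map (Function.Embedding.subtype _),
      f w i = (fun i => if hi : i ≠ i₀ then v ⟨i, hi⟩ else a₀) i) ↔
      ∀ i ∈ S, f w i.1 = v i := by
    intro w
    constructor
    · intro h1 i hi
      have := h1 i.1 (Finset.mem_map.2 ⟨i, hi, rfl⟩)
      simpa [i.2] using this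
    · intro h1 i hi
      obtain ⟨j, hj, rfl⟩ := Finset.mem_map.1 hi
      have := h1 j hj
      simpa [j.2] using this
  exact ⟨w, (key w).1 hw, fun w' hw' => hu w' ((key w').2 hw')⟩

/-- the residual array -/
theorem OA.resid (h : OA (m + 1) f) (a₀ : A) (i₀ : I) :
    OA m (fun (w : {w // f w i₀ = a₀}) (i : {i // i ≠ i₀}) => f w.1 i.1) := by
  intro S hS v
  have hnot : i₀ ∉ S.map (Function.Embedding.subtype _) := by
    intro h1
    obtain ⟨j, -, hj⟩ := Finset.mem_map.1 h1
    exact j.2 hj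
  obtain ⟨w, hw, hu⟩ := h (insert i₀ (S.map (Function.Embedding.subtype _)))
    (by rw [Finset.card_insert_of_notMem hnot, Finset.card_map, hS])
    (fun i => if hi : i ≠ i₀ then v ⟨i, hi⟩ else a₀)
  have key : ∀ w, (∀ i ∈ insert i₀ (S.map (Function.Embedding.subtype _)),
      f w i = (fun i => if hi : i ≠ i₀ then v ⟨i, hi⟩ else a₀) i) ↔
      f w i₀ = a₀ ∧ ∀ i ∈ S, f w i.1 = v i := by
    intro w
    constructor
    · intro h1
      refine ⟨by simpa using h1 i₀ (Finset.mem_insert_self _ _), fun i hi => ?_⟩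
      have := h1 i.1 (Finset.mem_insert_of_mem (Finset.mem_map.2 ⟨i, hi, rfl⟩))
      simpa [i.2] using this
    · rintro ⟨h0, h1⟩ i hi
      rcases Finset.mem_insert.1 hi with rfl | hi
      · simpa using h0
      · obtain ⟨j, hj, rfl⟩ := Finset.mem_map.1 hi
        have := h1 j hj
        simpa [j.2] using this
  refine ⟨⟨w, ((key w).1 hw).1⟩, ((key w).1 hw).2, ?_⟩
  rintro ⟨w', hw'⟩ h2
  exact Subtype.ext (hu w' ((key w').2 ⟨hw', h2⟩))

theorem OA.bij (h : OA m f) (a₀ : A) (e : Fin m → I) (he : Function.Injective e) :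
    Function.Bijective (fun (w : W) (i : Fin m) => f w (e i)) := by
  classical
  have hc : (Finset.univ.image e).card = m := by
    rw [Finset.card_image_of_injective _ he, Finset.card_univ, Fintype.card_fin]
  constructor
  · intro w w' hww
    apply h.eq_of (Finset.univ.image e) hc.ge
    intro i hi
    obtain ⟨j, -, rfl⟩ := Finset.mem_image.1 hi
    exact congrFun hww j
  · intro x
    obtain ⟨w, hw, -⟩ := h (Finset.univ.image e) hc
      (fun i => if hi : ∃ j, e j = i then x hi.choose else a₀)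
    refine ⟨w, ?_⟩
    funext j
    have h1 := hw (e j) (Finset.mem_image_of_mem _ (Finset.mem_univ _))
    have h2 : ∃ j', e j' = e j := ⟨j, rfl⟩
    rw [dif_pos h2] at h1
    change f w (e j) = x j
    rw [h1]
    congr 1
    exact he h2.choose_spec

/-- moments of the number of agreements -/
theorem moment1 (h : OA m f) (hk : m ≤ Fintype.card I) (hm : 1 ≤ m) (c : W) :
    ∑ w, ((agr f c w).card : ℤ) = (Fintype.card I : ℤ) * (Fintype.card A : ℤ) ^ (m - 1) := by
  have h1 : ∀ w, ((agr f c w).card : ℤ) = ∑ i, dl f c w i := by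
    intro w
    rw [sum_dl, Finset.univ_inter]
  rw [Finset.sum_congr rfl (fun w _ => h1 w), Finset.sum_comm]
  have h2 : ∀ i : I, ∑ w, dl f c w i = (Fintype.card A : ℤ) ^ (m - 1) := by
    intro x
    have h2 := G_eq h hk c c {x} ∅ (by simp) (by simpa using hm)
    rw [G] at h2
    simp only [Finset.mem_singleton, forall_eq, Finset.notMem_empty, false_imp_iff,
      implies_true, and_true, Finset.card_singleton, Finset.card_empty, Nat.add_zero] at h2
    exact h2
  rw [Finset.sum_congr rfl (fun i _ => h2 i), Finset.sum_const, Finset.card_univ, nsmul_eq_mul]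

theorem moment2 (h : OA m f) (hk : m ≤ Fintype.card I) (hm : 2 ≤ m) (c : W) :
    ∑ w, (((agr f c w).card : ℤ) ^ 2 - ((agr f c w).card : ℤ)) =
      (Fintype.card I : ℤ) * ((Fintype.card I : ℤ) - 1) * (Fintype.card A : ℤ) ^ (m - 2) := by
  have h1 : ∀ w, (((agr f c w).card : ℤ) ^ 2 - ((agr f c w).card : ℤ)) =
      ∑ z ∈ (Finset.univ : Finset I).offDiag, dl f c w z.1 * dl f c w z.2 := by
    intro w
    rw [sum_offDiag, sum_dl, Finset.univ_inter]
  rw [Finset.sum_congr rfl (fun w _ => h1 w), Finset.sum_comm]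
  have h2 : ∀ z ∈ (Finset.univ : Finset I).offDiag, ∑ w, dl f c w z.1 * dl f c w z.2 =
      (Fintype.card A : ℤ) ^ (m - 2) := by
    intro z hz
    obtain ⟨hz1, hz2, hz3⟩ := Finset.mem_offDiag.1 hz
    have h2 := G_eq h hk c c {z.1, z.2} ∅ (by simp) (by rw [Finset.card_pair hz3]; simpa using hm)
    rw [G, Finset.card_pair hz3, Finset.card_empty, Nat.add_zero] at h2
    rw [← h2]
    refine Finset.sum_congr rfl (fun w _ => ?_)
    unfold dl
    simp only [Finset.mem_insert, Finset.mem_singleton, forall_eq_or_imp, forall_eq,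
      Finset.notMem_empty, false_imp_iff, implies_true, and_true]
    split_ifs <;> simp_all
  rw [Finset.sum_congr rfl h2, Finset.sum_const, nsmul_eq_mul, card_offDiag_int,
    Finset.card_univ]

theorem card_words (h : OA m f) (hk : m ≤ Fintype.card I) (a₀ : A) :
    (Fintype.card W : ℤ) = (Fintype.card A : ℤ) ^ m := by
  have h1 := h.card_fib hk ∅ (by simp) (fun _ => a₀)
  have h2 : fib f ∅ (fun _ => a₀) = (Finset.univ : Finset W) := by
    ext w; simp [mem_fib]
  rw [h2, Finset.card_univ, Finset.card_empty, Nat.sub_zero] at h1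
  rw [h1]
  push_cast
  rfl

/-- strength four with `n + 3` columns: the order is divisible by nine -/
theorem nine_dvd (h : OA 4 f) (hk : Fintype.card I = Fintype.card A + 3)
    (hn : 3 ≤ Fintype.card A) : 9 ∣ Fintype.card A := by
  classical
  obtain ⟨a₀⟩ : Nonempty A := Fintype.card_pos_iff.1 (by omega)
  have hW := card_words h (by omega) a₀
  have hself : ∀ c : W, (agr f c c).card = Fintype.card I := by
    intro c
    rw [← Finset.card_univ]
    congr 1
    ext i; rw [mem_agr]; simp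
  -- a word
  have hWpos : 0 < Fintype.card W := by
    have : (0 : ℤ) < (Fintype.card A : ℤ) ^ 4 := by positivity
    rw [← hW] at this
    exact_mod_cast this
  obtain ⟨c⟩ : Nonempty W := Fintype.card_pos_iff.1 hWpos
  have hM1 := moment1 h (by omega) (by norm_num) c
  have hM2 := moment2 h (by omega) (by norm_num) c
  have hcase : ∀ w, w ≠ c → (agr f c w).card = 0 ∨ (agr f c w).card = 1 ∨
      (agr f c w).card = 3 := by
    intro w hw
    have h1 := h.card_agr_lt (Ne.symm hw)
    have h2 : (agr f c w).card ≠ 2 := fun h' =>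
      no_tangent h (by omega) (by omega) c w (by rw [h'])
    omega
  rw [hk] at hM1 hM2
  set n : ℤ := (Fintype.card A : ℤ) with hnd
  have hn3 : (3 : ℤ) ≤ n := by rw [hnd]; exact_mod_cast hn
  have hcast : ((Fintype.card A + 3 : ℕ) : ℤ) = n + 3 := by push_cast; rw [hnd]
  rw [hcast] at hM1 hM2
  -- words without agreement with `c`
  have hex0 : ∃ w, w ≠ c ∧ (agr f c w).card = 0 := by
    by_contra hcon
    push Not at hcon
    have h1 : ∀ w, (((agr f c w).card : ℤ) ^ 2 - ((agr f c w).card : ℤ)) -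
        3 * ((agr f c w).card : ℤ) + 3 =
        if w = c then ((n + 3) ^ 2 - (n + 3)) - 3 * (n + 3) + 3 else 0 := by
      intro w
      by_cases hw : w = c
      · rw [if_pos hw, hw, hself, hk, hcast]
      · rw [if_neg hw]
        rcases hcase w hw with h2 | h2 | h2
        · exact absurd h2 (hcon w hw)
        · rw [h2]; norm_num
        · rw [h2]; norm_num
    have h2 := Finset.sum_congr (rfl : (Finset.univ : Finset W) = Finset.univ) (fun w _ => h1 w)
    rw [Finset.sum_add_distrib, Finset.sum_sub_distrib, ← Finset.mul_sum, hM1, hM2,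
      Finset.sum_const, Finset.card_univ, nsmul_eq_mul, hW, Finset.sum_ite_eq'] at h2
    simp only [Finset.mem_univ, if_true] at h2
    have h3 : n * (n - 1) ^ 2 * (n - 2) = 0 := by
      linear_combination h2
    have h4 : 0 < n * (n - 1) ^ 2 * (n - 2) := by
      have h5 : 0 < n - 1 := by linarith
      have h6 : 0 < n - 2 := by linarith
      positivity
    omega
  -- words which agree with `c` exactly once
  have hex1 : ∃ w, w ≠ c ∧ (agr f c w).card = 1 := by
    by_contra hcon
    push Not at hcon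
    have h1 : ∀ w, (((agr f c w).card : ℤ) ^ 2 - ((agr f c w).card : ℤ)) -
        2 * ((agr f c w).card : ℤ) =
        if w = c then ((n + 3) ^ 2 - (n + 3)) - 2 * (n + 3) else 0 := by
      intro w
      by_cases hw : w = c
      · rw [if_pos hw, hw, hself, hk, hcast]
      · rw [if_neg hw]
        rcases hcase w hw with h2 | h2 | h2
        · rw [h2]; norm_num
        · exact absurd h2 (hcon w hw)
        · rw [h2]; norm_num
    have h2 := Finset.sum_congr (rfl : (Finset.univ : Finset W) = Finset.univ) (fun w _ => h1 w)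
    rw [Finset.sum_sub_distrib, ← Finset.mul_sum, hM1, hM2, Finset.sum_ite_eq'] at h2
    simp only [Finset.mem_univ, if_true] at h2
    have h3 : (n + 3) * n * (n - 1) ^ 2 = 0 := by
      linear_combination -h2
    have h4 : 0 < (n + 3) * n * (n - 1) ^ 2 := by
      have h5 : 0 < n - 1 := by linarith
      positivity
    omega
  -- two words which agree three times
  have hex3 : ∃ v w : W, v ≠ w ∧ (agr f v w).card = 3 := by
    obtain ⟨S, -, hS⟩ := Finset.exists_subset_card_eq
      (show 3 ≤ (Finset.univ : Finset I).card by rw [Finset.card_univ]; omega)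
    have h1 := h.card_fib (by omega) S (by omega) (fun _ => a₀)
    rw [hS] at h1
    norm_num at h1
    obtain ⟨v, hv, w, hw, hvw⟩ := Finset.one_lt_card.1
      (show 1 < (fib f S (fun _ => a₀)).card by rw [h1]; omega)
    refine ⟨v, w, hvw, ?_⟩
    have h2 := h.card_agr_lt hvw
    have h3 := Finset.card_le_card (show S ⊆ agr f v w from fun i hi => by
      rw [mem_agr, mem_fib.1 hv i hi, mem_fib.1 hw i hi])
    omega
  obtain ⟨w₀, hw₀, ha0⟩ := hex0
  obtain ⟨w₁, hw₁, ha1⟩ := hex1
  obtain ⟨v, w, hvw, ha3⟩ := hex3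
  have d0 := cong36 h hk (by omega) (Ne.symm hw₀)
  have d1 := cong36 h hk (by omega) (Ne.symm hw₁)
  have d3 := cong36 h hk (by omega) hvw
  rw [ha0, hk, hcast] at d0
  rw [ha1, hk, hcast] at d1
  rw [ha3, hk, hcast] at d3
  rw [← hnd] at d0 d1 d3
  have e0 := (ZMod.intCast_zmod_eq_zero_iff_dvd _ 36).2 d0
  have e1 := (ZMod.intCast_zmod_eq_zero_iff_dvd _ 36).2 d1
  have e3 := (ZMod.intCast_zmod_eq_zero_iff_dvd _ 36).2 d3
  push_cast at e0 e1 e3
  have key : ∀ x : ZMod 36,
      (x + 3 - 0) * (x + 3 - 0 - 1) * ((x + 3 - 0 - 2) * (x + 3 - 0 - 3) - 0 * x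
        + 0 * (0 - 1)) = 0 →
      (x + 3 - 1) * (x + 3 - 1 - 1) * ((x + 3 - 1 - 2) * (x + 3 - 1 - 3) - 1 * x
        + 1 * (1 - 1)) = 0 →
      (x + 3 - 3) * (x + 3 - 3 - 1) * ((x + 3 - 3 - 2) * (x + 3 - 3 - 3) - 3 * x
        + 3 * (3 - 1)) = 0 → 4 * x = 0 := by
    decide
  have e4 := key (n : ZMod 36) e0 e1 e3
  have e5 : ((4 * n : ℤ) : ZMod 36) = 0 := by push_cast; exact e4
  have e6 := (ZMod.intCast_zmod_eq_zero_iff_dvd _ 36).1 e5
  rw [hnd] at e6
  have e7 : (36 : ℕ) ∣ 4 * Fintype.card A := by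
    have : ((36 : ℕ) : ℤ) ∣ ((4 * Fintype.card A : ℕ) : ℤ) := by push_cast; exact e6
    exact_mod_cast this
  omega

/-- strength three with `n + 2` columns and even order: the order is divisible by four -/
theorem four_dvd (h : OA 3 f) (hk : Fintype.card I = Fintype.card A + 2)
    (hn : 3 ≤ Fintype.card A) (heven : Fintype.card A % 2 = 0) : 4 ∣ Fintype.card A := by
  have h1 := cong8 h hk hn
  have e0 := (ZMod.intCast_zmod_eq_zero_iff_dvd _ 8).2 h1
  push_cast at e0
  have key : ∀ x : ZMod 8, x * (x - 1) * (x - 4) = 0 → 4 * x = 0 → 2 * x = 0 := by decide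
  have e1 : (4 : ZMod 8) * (Fintype.card A : ZMod 8) = 0 := by
    obtain ⟨d, hd⟩ : ∃ d, Fintype.card A = 2 * d := ⟨_, (Nat.mul_div_cancel' (by omega)).symm⟩
    rw [hd]
    push_cast
    rw [← mul_assoc]
    have : (4 * 2 : ZMod 8) = 0 := by decide
    rw [this, zero_mul]
  have e2 := key _ e0 e1
  have e3 : ((2 * Fintype.card A : ℕ) : ZMod 8) = 0 := by push_cast; exact e2
  have e4 := (ZMod.natCast_eq_zero_iff _ 8).1 e3
  omega

end

/-- arrays of index one with `k` columns, strength `m` and order `n` -/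
def Ex (m k n : ℕ) : Prop :=
  ∃ (W I : Type) (_ : Fintype W) (_ : DecidableEq W) (_ : Fintype I) (_ : DecidableEq I)
    (f : W → I → Fin n), OA m f ∧ Fintype.card I = k

theorem Ex.drop {m k n : ℕ} (hn : 1 ≤ n) (h : Ex m (k + 1) n) : Ex m k n := by
  obtain ⟨W, I, _, _, _, _, f, hf, hc⟩ := h
  obtain ⟨i₀⟩ : Nonempty I := Fintype.card_pos_iff.1 (by omega)
  refine ⟨W, {i // i ≠ i₀}, inferInstance, inferInstance, inferInstance, inferInstance, _,
    hf.drop ⟨0, hn⟩ i₀, ?_⟩
  rw [Fintype.card_subtype_compl, Fintype.card_subtype_eq, hc]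
  rfl

theorem Ex.resid {m k n : ℕ} (hn : 1 ≤ n) (h : Ex (m + 1) (k + 1) n) : Ex m k n := by
  obtain ⟨W, I, _, _, _, _, f, hf, hc⟩ := h
  obtain ⟨i₀⟩ : Nonempty I := Fintype.card_pos_iff.1 (by omega)
  refine ⟨{w // f w i₀ = (⟨0, hn⟩ : Fin n)}, {i // i ≠ i₀}, inferInstance, inferInstance,
    inferInstance, inferInstance, _, hf.resid ⟨0, hn⟩ i₀, ?_⟩
  rw [Fintype.card_subtype_compl, Fintype.card_subtype_eq, hc]
  rfl

theorem Ex.drop_many {m n : ℕ} (hn : 1 ≤ n) (k : ℕ) : ∀ d, Ex m (k + d) n → Ex m k n := by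
  intro d
  induction d with
  | zero => exact id
  | succ d ih => exact fun h => ih (Ex.drop hn h)

theorem Ex.resid_many {m k n : ℕ} (hn : 1 ≤ n) : ∀ d, Ex (m + d) (k + d) n → Ex m k n := by
  intro d
  induction d with
  | zero => exact id
  | succ d ih => exact fun h => ih (Ex.resid hn h)

/-- **Extension theorem**: in even order `n + m - 2` columns can be extended. -/
theorem Ex.extend {m k n : ℕ} (hm : 1 ≤ m) (hn : 2 ≤ n) (heven : n % 2 = 0) (hk : k + 2 = n + m)
    (h : Ex m k n) : Ex m (k + 1) n := by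
  obtain ⟨W, I, _, _, _, _, f, hf, hc⟩ := h
  obtain ⟨g, hg⟩ := Pool.Agent.H2.OAX.extend hf hm (by rw [hc, Fintype.card_fin]; exact hk)
    (by rw [Fintype.card_fin]; exact hn) (by rw [Fintype.card_fin]; exact heven)
  exact ⟨W, Option I, inferInstance, inferInstance, inferInstance, inferInstance, _, hg,
    by rw [Fintype.card_option, hc]⟩

open Pool.Agent.H430R2.PermCubes in
theorem Ex.of_array {m n k : ℕ} {C : Fin k → (Fin m → Fin n) → Fin n} (h : IsArray m n k C) :
    Ex m k n := by
  refine ⟨Fin m → Fin n, Fin k, inferInstance, inferInstance, inferInstance, inferInstance,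
    fun x i => C i x, ?_, Fintype.card_fin k⟩
  intro S hS v
  obtain ⟨x, hx⟩ := h.exists_point S hS v
  refine ⟨x, hx, fun y hy => ?_⟩
  exact h.eq_of_agree S hS.ge (fun i hi => by rw [hx i hi]; exact hy i hi)

open Pool.Agent.H430R2.PermCubes in
theorem Ex.to_array {m n k : ℕ} (hn : 1 ≤ n) (hmk : m ≤ k) (h : Ex m k n) :
    ∃ C : Fin k → (Fin m → Fin n) → Fin n, IsArray m n k C := by
  obtain ⟨W, I, _, _, _, _, f, hf, hc⟩ := h
  let e : I ≃ Fin k := Fintype.equivFinOfCardEq hc
  let ι : Fin m → I := fun i => e.symm (Fin.castLE hmk i)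
  have hι : Function.Injective ι := e.symm.injective.comp (Fin.castLE_injective hmk)
  let φ : W ≃ (Fin m → Fin n) := Equiv.ofBijective _ (hf.bij ⟨0, hn⟩ ι hι)
  refine ⟨fun j x => f (φ.symm x) (e.symm j), ?_⟩
  intro e' he'
  exact (hf.bij ⟨0, hn⟩ (fun i => e.symm (e' i)) (e.symm.injective.comp he')).comp
    φ.symm.bijective

/-- **Arithmetical conditions** for arrays with `n + m - 1` columns. -/
theorem Ex.arith {m k n : ℕ} (hn : 3 ≤ n) (heven : n % 2 = 0) (hm : 3 ≤ m)
    (hk : k + 1 = n + m) (h : Ex m k n) :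
    4 ∣ n ∧ (4 ≤ m → 36 ∣ n) ∧ ∀ p : ℕ, p.Prime → p < m → ¬ p ∣ n - 1 := by
  have h4 : 4 ∣ n := by
    obtain ⟨d, hd⟩ : ∃ d, m = 3 + d := ⟨m - 3, by omega⟩
    have h3 : Ex 3 (n + 2) n := by
      apply Ex.resid_many (by omega) d
      rw [← hd]
      have : n + 2 + d = k := by omega
      rw [this]
      exact h
    obtain ⟨W, I, _, _, _, _, f, hf, hc⟩ := h3
    have := four_dvd hf (by rw [hc, Fintype.card_fin]) (by rw [Fintype.card_fin]; exact hn)
      (by rw [Fintype.card_fin]; exact heven)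
    rwa [Fintype.card_fin] at this
  refine ⟨h4, ?_, ?_⟩
  · intro hm4
    obtain ⟨d, hd⟩ : ∃ d, m = 4 + d := ⟨m - 4, by omega⟩
    have h3 : Ex 4 (n + 3) n := by
      apply Ex.resid_many (by omega) d
      rw [← hd]
      have : n + 3 + d = k := by omega
      rw [this]
      exact h
    obtain ⟨W, I, _, _, _, _, f, hf, hc⟩ := h3
    have := nine_dvd hf (by rw [hc, Fintype.card_fin]) (by rw [Fintype.card_fin]; exact hn)
    rw [Fintype.card_fin] at this
    omega
  · intro p hp hpm hpn
    obtain ⟨C, hC⟩ := Ex.to_array (by omega) (by omega) h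
    have := Pool.Agent.H72R3.VC.IsArray.le_prime hC (by omega) hp hpm hpn
    omega

/-- **Even order**: conditions for `n + m - 2` columns. -/
theorem Ex.even_order {m k n : ℕ} (hn : 3 ≤ n) (heven : n % 2 = 0) (hm : 3 ≤ m)
    (hk : n + m ≤ k + 2) (h : Ex m k n) :
    Ex m (n + m - 1) n ∧ 4 ∣ n ∧ (4 ≤ m → 36 ∣ n) ∧ ∀ p : ℕ, p.Prime → p < m → ¬ p ∣ n - 1 := by
  obtain ⟨d, hd⟩ : ∃ d, k = (n + m - 2) + d := ⟨k - (n + m - 2), by omega⟩
  have h1 : Ex m (n + m - 2) n := by
    apply Ex.drop_many (by omega) _ d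
    rw [← hd]; exact h
  have h2 := Ex.extend (by omega) (by omega) heven (by omega) h1
  have h3 : n + m - 2 + 1 = n + m - 1 := by omega
  rw [h3] at h2
  exact ⟨h2, Ex.arith hn heven hm (by omega) h2⟩

end Pool.Agent.H2.OAX
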