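import Pool.Agent.H2.OAX.Basic

set_option autoImplicit false
set_option linter.unusedSectionVars false

/-!
# Arrays of index one with `n + m - 2` columns: tangent words
-/

namespace Pool.Agent.H2.OAX

variable {W I A : Type} [Fintype W] [DecidableEq W] [Fintype I] [DecidableEq I]
  [Fintype A] [DecidableEq A]
variable {m : ℕ} {f : W → I → A}

/-- the word with a prescribed value at `i` which agrees with `c` exactly on `R` -/
theorem P1 (h : OA m f) (hk : Fintype.card I + 2 = Fintype.card A + m)
    (hn : 2 ≤ Fintype.card A) (c : W) (R : Finset I) (hR : R.card + 2 = m) (i : I) (hi : i ∉ R)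
    (a : A) (ha : a ≠ f c i) : ∃! w, f w i = a ∧ agr f c w = R := by
  classical
  set J : Finset I := (insert i R)ᶜ with hJ
  have hiR : (insert i R).card = R.card + 1 := Finset.card_insert_of_notMem hi
  have hJc : J.card + 1 = Fintype.card A := by
    have := Finset.card_add_card_compl (insert i R)
    rw [← hJ] at this
    omega
  have hJm : ∀ j ∈ J, j ≠ i ∧ j ∉ R := by
    intro j hj
    rw [hJ, Finset.mem_compl, Finset.mem_insert] at hj
    push Not at hj
    exact hj
  set L : Finset W := fib f (insert i R) (Function.update (f c) i a) with hL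
  have hLc : L.card = Fintype.card A := by
    rw [hL, h.card_fib (by omega) _ (by omega), hiR, show m - (R.card + 1) = 1 by omega, pow_one]
  have hLm : ∀ w, w ∈ L ↔ (∀ t ∈ R, f w t = f c t) ∧ f w i = a := by
    intro w
    rw [hL, mem_fib]
    constructor
    · intro h1
      refine ⟨fun t ht => ?_, ?_⟩
      · have := h1 t (Finset.mem_insert_of_mem ht)
        rwa [Function.update_of_ne (ne_of_mem_of_not_mem ht hi)] at this
      · have := h1 i (Finset.mem_insert_self _ _)
        rwa [Function.update_self] at this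
    · rintro ⟨h1, h2⟩ t ht
      rcases Finset.mem_insert.1 ht with rfl | ht
      · rw [Function.update_self]; exact h2
      · rw [Function.update_of_ne (ne_of_mem_of_not_mem ht hi)]; exact h1 t ht
  have hex : ∀ j ∈ J, ∃ w, (∀ t ∈ R, f w t = f c t) ∧ f w i = a ∧ f w j = f c j := by
    intro j hj
    obtain ⟨w, hw, -⟩ := h.exists3 R i j hi (hJm j hj).2 (hJm j hj).1.symm hR (f c) a (f c j)
    exact ⟨w, hw⟩
  have hW : Nonempty W := ⟨c⟩
  choose! p hp using hex
  have hsub : ∀ w ∈ L, R ⊆ agr f c w := by
    intro w hw t ht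
    exact mem_agr.2 (((hLm w).1 hw).1 t ht).symm
  have hL' : (L.filter (fun w => agr f c w ≠ R)).card = J.card := by
    symm
    refine Finset.card_bij (fun j _ => p j) ?_ ?_ ?_
    · intro j hj
      rw [Finset.mem_filter, hLm]
      refine ⟨⟨(hp j hj).1, (hp j hj).2.1⟩, ?_⟩
      intro he
      apply (hJm j hj).2
      rw [← he, mem_agr]
      exact (hp j hj).2.2.symm
    · intro j hj j' hj' he
      by_contra hne
      apply ha
      rw [← (hp j hj).2.1]
      congr 1
      refine h.eq_of (insert j (insert j' R)) ?_ ?_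
      · rw [Finset.card_insert_of_notMem, Finset.card_insert_of_notMem (hJm j' hj').2]
        · omega
        · simp [hne, (hJm j hj).2]
      · intro t ht
        rcases Finset.mem_insert.1 ht with rfl | ht
        · exact (hp t hj).2.2
        rcases Finset.mem_insert.1 ht with rfl | ht
        · rw [he]; exact (hp t hj').2.2
        · exact (hp j hj).1 t ht
    · intro w hw
      obtain ⟨hwL, hwR⟩ := Finset.mem_filter.1 hw
      obtain ⟨j, hj1, hj2⟩ : ∃ j ∈ agr f c w, j ∉ R := by
        by_contra hcon
        push Not at hcon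
        exact hwR (Finset.Subset.antisymm hcon (hsub w hwL))
      have hji : j ≠ i := by
        rintro rfl
        apply ha
        rw [← ((hLm w).1 hwL).2]
        exact (mem_agr.1 hj1).symm
      have hjJ : j ∈ J := by
        rw [hJ, Finset.mem_compl, Finset.mem_insert]
        push Not
        exact ⟨hji, hj2⟩
      refine ⟨j, hjJ, ?_⟩
      obtain ⟨u, -, hu⟩ := h.exists3 R i j hi hj2 hji.symm hR (f c) a (f c j)
      rw [hu (p j) (hp j hjJ), hu w ⟨((hLm w).1 hwL).1, ((hLm w).1 hwL).2, (mem_agr.1 hj1).symm⟩]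
  have hone : (L.filter (fun w => agr f c w = R)).card = 1 := by
    have := Finset.card_filter_add_card_filter_not (s := L) (fun w => agr f c w = R)
    simp only [ne_eq] at hL'
    omega
  obtain ⟨u, hu⟩ := Finset.card_eq_one.1 hone
  have hmem : ∀ w, w ∈ L.filter (fun w => agr f c w = R) ↔ f w i = a ∧ agr f c w = R := by
    intro w
    rw [Finset.mem_filter, hLm]
    constructor
    · rintro ⟨⟨-, h2⟩, h3⟩; exact ⟨h2, h3⟩
    · rintro ⟨h2, h3⟩
      refine ⟨⟨fun t ht => ?_, h2⟩, h3⟩
      rw [← h3] at ht
      exact (mem_agr.1 ht).symm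
  refine ⟨u, (hmem u).1 (by rw [hu]; exact Finset.mem_singleton_self _), ?_⟩
  intro w hw
  have := (hmem w).2 hw
  rw [hu] at this
  exact Finset.mem_singleton.1 this

/-- words which agree with `c` exactly on `R` agree with each other exactly on `R` -/
theorem tr_same (h : OA m f) (hk : Fintype.card I + 2 = Fintype.card A + m)
    (hn : 2 ≤ Fintype.card A) {c d e : W} (hd : (agr f c d).card + 2 = m)
    (he : agr f c e = agr f c d) (hne : d ≠ e) : agr f d e = agr f c d := by
  apply Finset.Subset.antisymm
  · intro i hi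
    by_contra hcon
    have h1 : f d i ≠ f c i := fun h' => hcon (mem_agr.2 h'.symm)
    obtain ⟨u, -, hu⟩ := P1 h hk hn c (agr f c d) hd i hcon (f d i) h1
    apply hne
    rw [hu d ⟨rfl, rfl⟩, hu e ⟨(mem_agr.1 hi).symm, he⟩]
  · intro i hi
    have h2 := hi
    rw [← he] at h2
    rw [mem_agr] at hi h2 ⊢
    rw [← hi, h2]

/-- the number of tangent words through two points is odd -/
theorem odd_tangent (h : OA m f) (hk : Fintype.card I + 2 = Fintype.card A + m)
    (hn : 2 ≤ Fintype.card A) (heven : Fintype.card A % 2 = 0) (c : W) (U : Finset I)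
    (hU : U.card + 3 = m) (i j : I) (hi : i ∉ U) (hj : j ∉ U) (hij : i ≠ j) (P Q : A)
    (hP : P ≠ f c i) (hQ : Q ≠ f c j) :
    (Finset.univ.filter (fun w => ((∀ t ∈ U, f w t = f c t) ∧ f w i = P ∧ f w j = Q) ∧
      (agr f c w).card + 2 = m)).card % 2 = 1 := by
  classical
  set S : Finset I := insert i (insert j U) with hS
  have hSc : S.card = U.card + 2 := by
    rw [hS, Finset.card_insert_of_notMem, Finset.card_insert_of_notMem hj]
    simp [hij, hi]
  set L : Finset W := Finset.univ.filter
    (fun w => (∀ t ∈ U, f w t = f c t) ∧ f w i = P ∧ f w j = Q) with hL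
  have hLm : ∀ w, w ∈ L ↔ (∀ t ∈ U, f w t = f c t) ∧ f w i = P ∧ f w j = Q := by
    intro w; rw [hL]; simp
  set J : Finset I := Sᶜ with hJ
  have hJc : J.card + 1 = Fintype.card A := by
    have := Finset.card_add_card_compl S
    rw [← hJ] at this
    omega
  have hJm : ∀ y, y ∈ J ↔ y ≠ i ∧ y ≠ j ∧ y ∉ U := by
    intro y
    rw [hJ, Finset.mem_compl, hS, Finset.mem_insert, Finset.mem_insert]
    tauto
  have hagr : ∀ w ∈ L, (agr f c w).card = U.card + ((agr f c w) ∩ J).card := by
    intro w hw
    obtain ⟨h1, h2, h3⟩ := (hLm w).1 hw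
    have : agr f c w = U ∪ (agr f c w ∩ J) := by
      ext y
      rw [Finset.mem_union, Finset.mem_inter, hJm]
      constructor
      · intro hy
        by_cases hyU : y ∈ U
        · exact Or.inl hyU
        · refine Or.inr ⟨hy, ?_, ?_, hyU⟩
          · rintro rfl
            exact hP (by rw [← h2]; exact (mem_agr.1 hy).symm)
          · rintro rfl
            exact hQ (by rw [← h3]; exact (mem_agr.1 hy).symm)
      · rintro (hy | hy)
        · exact mem_agr.2 (h1 y hy).symm
        · exact hy.1
    conv_lhs => rw [this]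
    rw [Finset.card_union_of_disjoint]
    rw [Finset.disjoint_left]
    intro y hy hy'
    exact ((hJm y).1 (Finset.mem_inter.1 hy').2).2.2 hy
  -- the sum of the numbers of further agreements
  have hsum : ∑ w ∈ L, ((agr f c w) ∩ J).card = J.card := by
    have h1 : ∀ w : W, ((agr f c w) ∩ J).card = ∑ y ∈ J, if f c y = f w y then 1 else 0 := by
      intro w
      rw [Finset.sum_ite, Finset.sum_const_zero, add_zero, Finset.sum_const, smul_eq_mul, mul_one]
      congr 1
      ext y
      rw [Finset.mem_inter, Finset.mem_filter, mem_agr]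
      tauto
    rw [Finset.sum_congr rfl (fun w _ => h1 w), Finset.sum_comm]
    have h2 : ∀ y ∈ J, (∑ w ∈ L, if f c y = f w y then 1 else 0) = 1 := by
      intro y hy
      obtain ⟨hy1, hy2, hy3⟩ := (hJm y).1 hy
      rw [Finset.sum_ite, Finset.sum_const_zero, add_zero, Finset.sum_const, smul_eq_mul, mul_one,
        Finset.card_eq_one]
      obtain ⟨u, hu1, hu2⟩ := h.exists3 (insert y U) i j (by simp [hy1.symm, hi])
        (by simp [hy2.symm, hj]) hij (by rw [Finset.card_insert_of_notMem hy3]; omega) (f c) P Q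
      refine ⟨u, ?_⟩
      ext w
      rw [Finset.mem_filter, Finset.mem_singleton, hLm]
      constructor
      · rintro ⟨⟨h3, h4, h5⟩, h6⟩
        apply hu2
        refine ⟨fun t ht => ?_, h4, h5⟩
        rcases Finset.mem_insert.1 ht with rfl | ht
        · exact h6.symm
        · exact h3 t ht
      · rintro rfl
        exact ⟨⟨fun t ht => hu1.1 t (Finset.mem_insert_of_mem ht), hu1.2.1, hu1.2.2⟩,
          (hu1.1 y (Finset.mem_insert_self _ _)).symm⟩
    rw [Finset.sum_congr rfl h2, Finset.sum_const, smul_eq_mul, mul_one]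
  have hlt : ∀ w ∈ L, ((agr f c w) ∩ J).card ≤ 2 := by
    intro w hw
    have hcw : c ≠ w := by
      rintro rfl
      exact hP ((hLm c).1 hw).2.1.symm
    have h1 := h.card_agr_lt hcw
    have h2 := hagr w hw
    omega
  have hE : (Finset.univ.filter (fun w => ((∀ t ∈ U, f w t = f c t) ∧ f w i = P ∧ f w j = Q) ∧
      (agr f c w).card + 2 = m)) = L.filter (fun w => ((agr f c w) ∩ J).card = 1) := by
    ext w
    rw [Finset.mem_filter, Finset.mem_filter, hLm]
    constructor
    · rintro ⟨-, h1, h2⟩
      have := hagr w ((hLm w).2 h1)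
      exact ⟨h1, by omega⟩
    · rintro ⟨h1, h2⟩
      have := hagr w ((hLm w).2 h1)
      exact ⟨Finset.mem_univ _, h1, by omega⟩
  rw [hE]
  have hsplit : ∀ w ∈ L, ((agr f c w) ∩ J).card =
      (if ((agr f c w) ∩ J).card = 1 then 1 else 0) +
        2 * (if ((agr f c w) ∩ J).card = 2 then 1 else 0) := by
    intro w hw
    have := hlt w hw
    rcases (by omega : ((agr f c w) ∩ J).card = 0 ∨ ((agr f c w) ∩ J).card = 1 ∨
      ((agr f c w) ∩ J).card = 2) with h1 | h1 | h1 <;> simp [h1]
  rw [Finset.sum_congr rfl hsplit, Finset.sum_add_distrib, ← Finset.mul_sum, ← Finset.card_filter]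
    at hsum
  omega

/-- at most one tangent word through two points -/
theorem P2 (h : OA m f) (hk : Fintype.card I + 2 = Fintype.card A + m)
    (hn : 2 ≤ Fintype.card A) (heven : Fintype.card A % 2 = 0) (c : W) (U : Finset I)
    (hU : U.card + 3 = m) (i j : I) (hi : i ∉ U) (hj : j ∉ U) (hij : i ≠ j) (P Q : A)
    (hP : P ≠ f c i) (hQ : Q ≠ f c j) :
    (Finset.univ.filter (fun w => ((∀ t ∈ U, f w t = f c t) ∧ f w i = P ∧ f w j = Q) ∧
      (agr f c w).card + 2 = m)).card = 1 := by
  classical
  have hodd : ∀ Q ∈ Finset.univ.erase (f c j), 1 ≤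
      (Finset.univ.filter (fun w => ((∀ t ∈ U, f w t = f c t) ∧ f w i = P ∧ f w j = Q) ∧
        (agr f c w).card + 2 = m)).card := by
    intro Q' hQ'
    have := odd_tangent h hk hn heven c U hU i j hi hj hij P Q' hP (Finset.ne_of_mem_erase hQ')
    omega
  -- all tangent words through the first point
  set F : Finset W := Finset.univ.filter (fun w => ((∀ t ∈ U, f w t = f c t) ∧ f w i = P ∧
    f w j ≠ f c j) ∧ (agr f c w).card + 2 = m) with hF
  set J : Finset I := (insert i (insert j U))ᶜ with hJ
  have hSc : (insert i (insert j U)).card = U.card + 2 := by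
    rw [Finset.card_insert_of_notMem, Finset.card_insert_of_notMem hj]
    simp [hij, hi]
  have hJc : J.card + 1 = Fintype.card A := by
    have := Finset.card_add_card_compl (insert i (insert j U))
    rw [← hJ] at this
    omega
  have hJm : ∀ y, y ∈ J ↔ y ≠ i ∧ y ≠ j ∧ y ∉ U := by
    intro y
    rw [hJ, Finset.mem_compl, Finset.mem_insert, Finset.mem_insert]
    tauto
  have hex : ∀ y ∈ J, ∃ w, f w i = P ∧ agr f c w = insert y U := by
    intro y hy
    obtain ⟨hy1, hy2, hy3⟩ := (hJm y).1 hy
    obtain ⟨w, hw, -⟩ := P1 h hk hn c (insert y U)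
      (by rw [Finset.card_insert_of_notMem hy3]; omega) i (by simp [hy1.symm, hi]) P hP
    exact ⟨w, hw⟩
  have hW : Nonempty W := ⟨c⟩
  choose! p hp using hex
  have hFc : F.card = J.card := by
    symm
    refine Finset.card_bij (fun y _ => p y) ?_ ?_ ?_
    · intro y hy
      obtain ⟨hy1, hy2, hy3⟩ := (hJm y).1 hy
      obtain ⟨h1, h2⟩ := hp y hy
      rw [hF, Finset.mem_filter]
      refine ⟨Finset.mem_univ _, ⟨fun t ht => ?_, h1, ?_⟩, ?_⟩
      · have : t ∈ agr f c (p y) := by rw [h2]; exact Finset.mem_insert_of_mem ht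
        exact (mem_agr.1 this).symm
      · intro h3
        have : j ∈ agr f c (p y) := mem_agr.2 h3.symm
        rw [h2, Finset.mem_insert] at this
        rcases this with rfl | this
        · exact hy2 rfl
        · exact hj this
      · rw [h2, Finset.card_insert_of_notMem hy3]; omega
    · intro y hy y' hy' he
      obtain ⟨hy1, hy2, hy3⟩ := (hJm y).1 hy
      have h1 : insert y U = insert y' U := by
        rw [← (hp y hy).2, ← (hp y' hy').2]
        rw [he]
      have h2 : y ∈ insert y' U := by rw [← h1]; exact Finset.mem_insert_self _ _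
      rcases Finset.mem_insert.1 h2 with h3 | h3
      · exact h3
      · exact absurd h3 hy3
    · intro w hw
      rw [hF, Finset.mem_filter] at hw
      obtain ⟨-, ⟨h1, h2, h3⟩, h4⟩ := hw
      have hsub : U ⊆ agr f c w := fun t ht => mem_agr.2 (h1 t ht).symm
      have hcard : (agr f c w \ U).card = 1 := by
        rw [Finset.card_sdiff_of_subset hsub]; omega
      obtain ⟨y, hy⟩ := Finset.card_eq_one.1 hcard
      have hy' : y ∈ agr f c w \ U := by rw [hy]; exact Finset.mem_singleton_self _
      rw [Finset.mem_sdiff] at hy'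
      have hagr : agr f c w = insert y U := by
        rw [← Finset.sdiff_union_of_subset hsub, hy]
        rfl
      have hyi : y ≠ i := by
        rintro rfl
        exact hP (by rw [← h2]; exact (mem_agr.1 hy'.1).symm)
      have hyj : y ≠ j := by
        rintro rfl
        exact h3 (mem_agr.1 hy'.1).symm
      have hyJ : y ∈ J := (hJm y).2 ⟨hyi, hyj, hy'.2⟩
      refine ⟨y, hyJ, ?_⟩
      obtain ⟨u, -, hu⟩ := P1 h hk hn c (insert y U)
        (by rw [Finset.card_insert_of_notMem hy'.2]; omega) i (by simp [hyi.symm, hi]) P hP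
      rw [hu (p y) (hp y hyJ), hu w ⟨h2, hagr⟩]
  have hsum : ∑ Q ∈ Finset.univ.erase (f c j),
      (Finset.univ.filter (fun w => ((∀ t ∈ U, f w t = f c t) ∧ f w i = P ∧ f w j = Q) ∧
        (agr f c w).card + 2 = m)).card = F.card := by
    rw [Finset.card_eq_sum_card_fiberwise (s := F) (f := fun w => f w j)
      (t := Finset.univ.erase (f c j))]
    · refine Finset.sum_congr rfl (fun Q' hQ' => ?_)
      congr 1
      ext w
      rw [Finset.mem_filter, Finset.mem_filter, hF, Finset.mem_filter]
      constructor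
      · rintro ⟨-, ⟨h1, h2, h3⟩, h4⟩
        refine ⟨⟨Finset.mem_univ _, ⟨h1, h2, ?_⟩, h4⟩, h3⟩
        rw [h3]; exact Finset.ne_of_mem_erase hQ'
      · rintro ⟨⟨-, ⟨h1, h2, h3⟩, h4⟩, h5⟩
        exact ⟨Finset.mem_univ _, ⟨h1, h2, h5⟩, h4⟩
    · intro w hw
      have hw := Finset.mem_coe.1 hw
      rw [hF, Finset.mem_filter] at hw
      rw [Finset.mem_coe, Finset.mem_erase]
      exact ⟨hw.2.1.2.2, Finset.mem_univ _⟩
  have hcardE : (Finset.univ.erase (f c j)).card + 1 = Fintype.card A := by
    rw [Finset.card_erase_of_mem (Finset.mem_univ _), Finset.card_univ]; omega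
  by_contra hcon
  have hQm : Q ∈ Finset.univ.erase (f c j) := Finset.mem_erase.2 ⟨hQ, Finset.mem_univ _⟩
  have h2 := hodd Q hQm
  have h3 := Finset.sum_lt_sum hodd ⟨Q, hQm, lt_of_le_of_ne h2 (Ne.symm hcon)⟩
  rw [Finset.sum_const, smul_eq_mul, mul_one, hsum, hFc] at h3
  omega

end Pool.Agent.H2.OAX
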