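import Pool.Agent.H2.OAX.Four

set_option autoImplicit false
set_option linter.unusedSectionVars false

/-!
# Strength three with `n + 2` columns
-/

namespace Pool.Agent.H2.OAX

variable {W I A : Type} [Fintype W] [DecidableEq W] [Fintype I] [DecidableEq I]
  [Fintype A] [DecidableEq A]
variable {m : ℕ} {f : W → I → A}

theorem sum_distinct3 (K : Finset I) (F : I → I → I → ℤ)
    (h0 : ∀ a ∈ K, ∀ b ∈ K, ∀ d ∈ K, (a = b ∨ a = d ∨ b = d) → F a b d = 0)
    (h1 : ∀ a ∈ K, ∀ b ∈ K, ∀ d ∈ K, a ≠ b → a ≠ d → b ≠ d → F a b d = 1) :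
    ∑ a ∈ K, ∑ b ∈ K, ∑ d ∈ K, F a b d =
      (K.card : ℤ) * ((K.card : ℤ) - 1) * ((K.card : ℤ) - 2) := by
  have h2 := sum_one_two K (fun a b => ∑ d ∈ K, F a b d) ((K.card : ℤ) - 2) ?_ ?_
  · exact h2
  · intro a ha
    exact Finset.sum_eq_zero (fun d hd => h0 a ha a ha d hd (Or.inl rfl))
  · intro a ha b hb hab
    have h3 : ∀ d ∈ K, F a b d = if d ∈ (K.erase a).erase b then 1 else 0 := by
      intro d hd
      by_cases hcase : a = d ∨ b = d
      · rw [h0 a ha b hb d hd (Or.inr hcase), if_neg]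
        intro h4
        rw [Finset.mem_erase, Finset.mem_erase] at h4
        rcases hcase with h5 | h5
        · exact h4.2.1 h5.symm
        · exact h4.1 h5.symm
      · push Not at hcase
        rw [h1 a ha b hb d hd hab hcase.1 hcase.2, if_pos]
        rw [Finset.mem_erase, Finset.mem_erase]
        exact ⟨hcase.2.symm, hcase.1.symm, hd⟩
    rw [Finset.sum_congr rfl h3, ← Finset.sum_filter, Finset.sum_const, nsmul_eq_mul, mul_one]
    have h5 : K.filter (fun d => d ∈ (K.erase a).erase b) = (K.erase a).erase b := by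
      ext d
      simp only [Finset.mem_filter, Finset.mem_erase]
      tauto
    have h7 : b ∈ K.erase a := Finset.mem_erase.2 ⟨hab.symm, hb⟩
    rw [h5, Finset.card_erase_of_mem h7, Finset.card_erase_of_mem ha]
    have : 1 < K.card := Finset.one_lt_card.2 ⟨_, ha, _, hb, hab⟩
    omega

theorem term3' (c₀ c₁ c₂ w : W) (a b d : I) :
    dl f c₀ w a * dl f c₁ w b * dl f c₂ w d =
      if f w a = f c₀ a ∧ f w b = f c₁ b ∧ f w d = f c₂ d then 1 else 0 := by
  unfold dl
  split_ifs <;> simp_all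

theorem triple_sum (h : OA 3 f) (c₀ c₁ c₂ : W) (K : Finset I)
    (h01 : ∀ i ∈ K, f c₀ i ≠ f c₁ i) (h02 : ∀ i ∈ K, f c₀ i ≠ f c₂ i)
    (h12 : ∀ i ∈ K, f c₁ i ≠ f c₂ i) :
    ∑ w, (∑ a ∈ K, dl f c₀ w a) * (∑ b ∈ K, dl f c₁ w b) * (∑ d ∈ K, dl f c₂ w d) =
      (K.card : ℤ) * ((K.card : ℤ) - 1) * ((K.card : ℤ) - 2) := by
  have h1 : ∀ w, (∑ a ∈ K, dl f c₀ w a) * (∑ b ∈ K, dl f c₁ w b) * (∑ d ∈ K, dl f c₂ w d) =
      ∑ a ∈ K, ∑ b ∈ K, ∑ d ∈ K, dl f c₀ w a * dl f c₁ w b * dl f c₂ w d := by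
    intro w
    rw [Finset.sum_mul_sum, Finset.sum_mul]
    refine Finset.sum_congr rfl (fun x _ => ?_)
    rw [Finset.sum_mul_sum]
  rw [Finset.sum_congr rfl (fun w _ => h1 w), Finset.sum_comm]
  have h2 : ∀ a ∈ K, ∑ w, ∑ b ∈ K, ∑ d ∈ K, dl f c₀ w a * dl f c₁ w b * dl f c₂ w d =
      ∑ b ∈ K, ∑ d ∈ K, ∑ w, dl f c₀ w a * dl f c₁ w b * dl f c₂ w d := by
    intro a _
    rw [Finset.sum_comm]
    exact Finset.sum_congr rfl (fun b _ => Finset.sum_comm)
  rw [Finset.sum_congr rfl h2]
  apply sum_distinct3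
  · intro a ha b hb d hd hcase
    apply Finset.sum_eq_zero
    intro w _
    rw [term3', if_neg]
    rintro ⟨h3, h4, h5⟩
    rcases hcase with rfl | rfl | rfl
    · exact h01 a ha (h3.symm.trans h4)
    · exact h02 a ha (h3.symm.trans h5)
    · exact h12 b hb (h4.symm.trans h5)
  · intro a ha b hb d hd hab had hbd
    have hc : ({a, b, d} : Finset I).card = 3 :=
      Finset.card_eq_three.2 ⟨a, b, d, hab, had, hbd, rfl⟩
    obtain ⟨u, hu, huu⟩ := h {a, b, d} hc
      (fun i => if i = a then f c₀ a else if i = b then f c₁ b else f c₂ d)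
    have key : ∀ w, (∀ i ∈ ({a, b, d} : Finset I), f w i =
        (fun i => if i = a then f c₀ a else if i = b then f c₁ b else f c₂ d) i) ↔
        (f w a = f c₀ a ∧ f w b = f c₁ b ∧ f w d = f c₂ d) := by
      intro w
      simp only [Finset.mem_insert, Finset.mem_singleton, forall_eq_or_imp, forall_eq]
      simp [hab.symm, had.symm, hbd.symm]
    have h3 : ∀ w : W, dl f c₀ w a * dl f c₁ w b * dl f c₂ w d = if w = u then 1 else 0 := by
      intro w
      rw [term3']
      congr 1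
      apply propext
      constructor
      · intro h4; exact huu w ((key w).2 h4)
      · intro h4; rw [h4]; exact (key u).1 hu
    rw [Finset.sum_congr rfl (fun w _ => h3 w)]
    simp

/-- **The congruence** for three words that agree on two coordinates. -/
theorem cong8 (h : OA 3 f) (hk : Fintype.card I = Fintype.card A + 2)
    (hn : 3 ≤ Fintype.card A) :
    (8 : ℤ) ∣ (Fintype.card A : ℤ) * ((Fintype.card A : ℤ) - 1) * ((Fintype.card A : ℤ) - 4) := by
  classical
  obtain ⟨a₀⟩ : Nonempty A := Fintype.card_pos_iff.1 (by omega)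
  obtain ⟨X, -, hX⟩ := Finset.exists_subset_card_eq
    (show 2 ≤ (Finset.univ : Finset I).card by rw [Finset.card_univ]; omega)
  have hF := h.card_fib (by omega) X (by omega) (fun _ => a₀)
  rw [hX] at hF
  obtain ⟨T, hT, hTc⟩ := Finset.exists_subset_card_eq
    (show 3 ≤ (fib f X (fun _ => a₀)).card by rw [hF]; simpa using hn)
  obtain ⟨c₀, c₁, c₂, h01, h02, h12, hTe⟩ := Finset.card_eq_three.1 hTc
  have hc0 := mem_fib.1 (hT (by rw [hTe]; simp : c₀ ∈ T))
  have hc1 := mem_fib.1 (hT (by rw [hTe]; simp : c₁ ∈ T))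
  have hc2 := mem_fib.1 (hT (by rw [hTe]; simp : c₂ ∈ T))
  set K : Finset I := Xᶜ with hKd
  have hXK : Disjoint X K := disjoint_compl_right
  have hKc : (K.card : ℤ) = (Fintype.card A : ℤ) := by
    rw [hKd, Finset.card_compl, hX, hk]; norm_num
  have hne : ∀ {u v : W}, u ≠ v → (∀ i ∈ X, f u i = a₀) → (∀ i ∈ X, f v i = a₀) →
      ∀ i ∈ K, f u i ≠ f v i := by
    intro u v huv hu hv i hi h'
    have hiX : i ∉ X := by rw [hKd, Finset.mem_compl] at hi; exact hi
    apply huv
    apply h.eq_of (insert i X) (by rw [Finset.card_insert_of_notMem hiX, hX])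
    intro t ht
    rcases Finset.mem_insert.1 ht with rfl | ht
    · exact h'
    · rw [hu t ht, hv t ht]
  have hk01 := hne h01 hc0 hc1
  have hk02 := hne h02 hc0 hc2
  have hk12 := hne h12 hc1 hc2
  have hunion : ∀ v w : W, (X ∩ agr f v w).card + (K ∩ agr f v w).card = (agr f v w).card := by
    intro v w
    rw [← Finset.card_union_of_disjoint (Finset.disjoint_of_subset_left
        Finset.inter_subset_left (Finset.disjoint_of_subset_right Finset.inter_subset_left hXK)),
        ← Finset.union_inter_distrib_right, hKd, Finset.union_compl, Finset.univ_inter]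
  have hl : ∀ (v : W), (∀ i ∈ X, f v i = a₀) → ∀ w : W, X ∩ agr f v w = X ∩ agr f c₀ w := by
    intro v hv w
    ext i
    simp only [Finset.mem_inter, mem_agr]
    constructor
    · rintro ⟨h1, h2⟩
      exact ⟨h1, by rw [hc0 i h1, ← hv i h1]; exact h2⟩
    · rintro ⟨h1, h2⟩
      exact ⟨h1, by rw [hv i h1, ← hc0 i h1]; exact h2⟩
  have hkey : ∀ w : W, (8 : ℤ) ∣
      (∑ a ∈ K, dl f c₀ w a) * (∑ b ∈ K, dl f c₁ w b) * (∑ d ∈ K, dl f c₂ w d) -
      (∑ x ∈ X, dl f c₀ w x) +
      ((∑ x ∈ X, dl f c₀ w x) ^ 2 - ∑ x ∈ X, dl f c₀ w x) := by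
    intro w
    rw [sum_dl, sum_dl, sum_dl, sum_dl]
    have e0 := hunion c₀ w
    have e1 := hunion c₁ w
    have e2 := hunion c₂ w
    rw [hl c₁ hc1] at e1
    rw [hl c₂ hc2] at e2
    have hlX : (X ∩ agr f c₀ w).card ≤ 2 := by
      rw [← hX]; exact Finset.card_le_card Finset.inter_subset_left
    have hself : ∀ v : W, (∀ i ∈ X, f v i = a₀) → w = v → (X ∩ agr f c₀ w).card = 2 := by
      intro v hv hw
      rw [← hX]
      congr 1
      ext i
      simp only [Finset.mem_inter, mem_agr]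
      constructor
      · exact fun h' => h'.1
      · exact fun h' => ⟨h', by rw [hw, hc0 i h', hv i h']⟩
    have hz : ∀ u v : W, (∀ i ∈ K, f u i ≠ f v i) → w = v → (K ∩ agr f u w).card = 0 := by
      intro u v huv hw
      rw [Finset.card_eq_zero, Finset.eq_empty_iff_forall_notMem]
      intro i hi
      rw [Finset.mem_inter, mem_agr, hw] at hi
      exact huv i hi.1 hi.2
    by_cases hw0 : w = c₀
    · rw [hself c₀ hc0 hw0, hz c₁ c₀ (fun i hi => (hk01 i hi).symm) hw0]; norm_num
    by_cases hw1 : w = c₁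
    · rw [hself c₁ hc1 hw1, hz c₀ c₁ hk01 hw1]; norm_num
    by_cases hw2 : w = c₂
    · rw [hself c₂ hc2 hw2, hz c₀ c₂ hk02 hw2]; norm_num
    have a0 := h.card_agr_lt (Ne.symm hw0)
    have a1 := h.card_agr_lt (Ne.symm hw1)
    have a2 := h.card_agr_lt (Ne.symm hw2)
    have b0 : (agr f c₀ w).card ≠ 1 := fun h' =>
      no_tangent h (by omega) (by omega) c₀ w (by rw [h'])
    have b1 : (agr f c₁ w).card ≠ 1 := fun h' =>
      no_tangent h (by omega) (by omega) c₁ w (by rw [h'])
    have b2 : (agr f c₂ w).card ≠ 1 := fun h' =>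
      no_tangent h (by omega) (by omega) c₂ w (by rw [h'])
    clear hself hz
    generalize (X ∩ agr f c₀ w).card = l at *
    generalize (K ∩ agr f c₀ w).card = p at *
    generalize (K ∩ agr f c₁ w).card = q at *
    generalize (K ∩ agr f c₂ w).card = r at *
    generalize (agr f c₀ w).card = s at *
    generalize (agr f c₁ w).card = t at *
    generalize (agr f c₂ w).card = u at *
    subst e0
    subst e1
    subst e2
    have hp4 : p < 3 := by omega
    have hq4 : q < 3 := by omega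
    have hr4 : r < 3 := by omega
    interval_cases l <;> interval_cases p <;> interval_cases q <;> interval_cases r <;>
      first | (exfalso; omega) | norm_num
  have hsum := Finset.dvd_sum (s := (Finset.univ : Finset W)) (fun w _ => hkey w)
  have hS1 : ∑ w, ∑ x ∈ X, dl f c₀ w x = 2 * (Fintype.card A : ℤ) ^ 2 := by
    rw [Finset.sum_comm]
    have h1 : ∀ x ∈ X, ∑ w, dl f c₀ w x = (Fintype.card A : ℤ) ^ 2 := by
      intro x _
      have h2 := G_eq h (by omega) c₀ c₀ {x} ∅ (by simp) (by simp)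
      rw [G] at h2
      simp only [Finset.mem_singleton, forall_eq, Finset.notMem_empty, false_imp_iff,
        implies_true, and_true, Finset.card_singleton, Finset.card_empty] at h2
      exact h2
    rw [Finset.sum_congr rfl h1, Finset.sum_const, hX, nsmul_eq_mul]
    norm_num
  have hS2 : ∑ w, ((∑ x ∈ X, dl f c₀ w x) ^ 2 - ∑ x ∈ X, dl f c₀ w x) =
      2 * (Fintype.card A : ℤ) := by
    rw [Finset.sum_congr rfl (fun w _ => (sum_offDiag c₀ w X).symm), Finset.sum_comm]
    have h1 : ∀ z ∈ X.offDiag, ∑ w, dl f c₀ w z.1 * dl f c₀ w z.2 = (Fintype.card A : ℤ) := by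
      intro z hz
      obtain ⟨hz1, hz2, hz3⟩ := Finset.mem_offDiag.1 hz
      have h2 := G_eq h (by omega) c₀ c₀ {z.1, z.2} ∅ (by simp)
        (by rw [Finset.card_pair hz3]; simp)
      rw [G, Finset.card_pair hz3, Finset.card_empty] at h2
      have h3 : (3 - (2 + 0) : ℕ) = 1 := rfl
      rw [h3, pow_one] at h2
      rw [← h2]
      refine Finset.sum_congr rfl (fun w _ => ?_)
      unfold dl
      simp only [Finset.mem_insert, Finset.mem_singleton, forall_eq_or_imp, forall_eq,
        Finset.notMem_empty, false_imp_iff, implies_true, and_true]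
      split_ifs <;> simp_all
    rw [Finset.sum_congr rfl h1, Finset.sum_const, nsmul_eq_mul, card_offDiag_int, hX]
    norm_num
  rw [Finset.sum_add_distrib, Finset.sum_sub_distrib, triple_sum h c₀ c₁ c₂ K hk01 hk02 hk12,
    hS1, hS2, hKc] at hsum
  refine hsum.trans (dvd_of_eq ?_)
  ring

end Pool.Agent.H2.OAX
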