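import Pool.Agent.H2.OAX.Tangent

set_option autoImplicit false
set_option linter.unusedSectionVars false

/-!
# Even alphabets: tangency is transitive
-/

namespace Pool.Agent.H2.OAX

variable {W I A : Type} [Fintype W] [DecidableEq W] [Fintype I] [DecidableEq I]
  [Fintype A] [DecidableEq A]
variable {m : ℕ} {f : W → I → A}

theorem card_tan (h : OA m f) (hk : Fintype.card I + 2 = Fintype.card A + m)
    (hn : 2 ≤ Fintype.card A) (c : W) (U : Finset I) (hU : U.card + 3 = m) (i : I) (hi : i ∉ U)
    (T : Finset I) (hT : ∀ y ∈ T, y ≠ i ∧ y ∉ U) (P : A) (hP : P ≠ f c i) :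
    (Finset.univ.filter (fun w => f w i = P ∧ ∃ y ∈ T, agr f c w = insert y U)).card
      = T.card := by
  classical
  have hex : ∀ y ∈ T, ∃ w, f w i = P ∧ agr f c w = insert y U := by
    intro y hy
    obtain ⟨hy1, hy3⟩ := hT y hy
    obtain ⟨w, hw, -⟩ := P1 h hk hn c (insert y U)
      (by rw [Finset.card_insert_of_notMem hy3]; omega) i (by simp [hy1.symm, hi]) P hP
    exact ⟨w, hw⟩
  have hW : Nonempty W := ⟨c⟩
  choose! p hp using hex
  symm
  refine Finset.card_bij (fun y _ => p y) ?_ ?_ ?_
  · intro y hy
    rw [Finset.mem_filter]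
    exact ⟨Finset.mem_univ _, (hp y hy).1, y, hy, (hp y hy).2⟩
  · intro y hy y' hy' he
    have h1 : insert y U = insert y' U := by
      rw [← (hp y hy).2, ← (hp y' hy').2, he]
    have h2 : y ∈ insert y' U := by rw [← h1]; exact Finset.mem_insert_self _ _
    rcases Finset.mem_insert.1 h2 with h3 | h3
    · exact h3
    · exact absurd h3 (hT y hy).2
  · intro w hw
    obtain ⟨-, h1, y, hy, h2⟩ := Finset.mem_filter.1 hw
    refine ⟨y, hy, ?_⟩
    obtain ⟨hy1, hy3⟩ := hT y hy
    obtain ⟨u, -, hu⟩ := P1 h hk hn c (insert y U)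
      (by rw [Finset.card_insert_of_notMem hy3]; omega) i (by simp [hy1.symm, hi]) P hP
    rw [hu (p y) (hp y hy), hu w ⟨h1, h2⟩]

/-- **Even alphabets**: two words which agree with `c` on `m - 2` coordinates each and which have
`m - 3` of these in common agree on `m - 2` coordinates. -/
theorem tr_one (h : OA m f) (hk : Fintype.card I + 2 = Fintype.card A + m)
    (hn : 2 ≤ Fintype.card A) (heven : Fintype.card A % 2 = 0) {c d e : W}
    (hd : (agr f c d).card + 2 = m) (he : (agr f c e).card + 2 = m)
    (hde : (agr f c d ∩ agr f c e).card + 3 = m) : (agr f d e).card + 2 = m := by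
  classical
  set U : Finset I := agr f c d ∩ agr f c e with hU
  obtain ⟨x, hx⟩ : ∃ x, agr f c d = insert x U ∧ x ∉ U := by
    have h1 : (agr f c d \ U).card = 1 := by
      have h1 : (agr f c d \ U).card = (agr f c d).card - U.card :=
        Finset.card_sdiff_of_subset Finset.inter_subset_left
      omega
    obtain ⟨x, hx⟩ := Finset.card_eq_one.1 h1
    have h2 : x ∈ agr f c d \ U := by rw [hx]; exact Finset.mem_singleton_self _
    refine ⟨x, ?_, (Finset.mem_sdiff.1 h2).2⟩
    rw [← Finset.sdiff_union_of_subset (show U ⊆ agr f c d from Finset.inter_subset_left), hx]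
    rfl
  obtain ⟨y, hy⟩ : ∃ y, agr f c e = insert y U ∧ y ∉ U := by
    have h1 : (agr f c e \ U).card = 1 := by
      have h1 : (agr f c e \ U).card = (agr f c e).card - U.card :=
        Finset.card_sdiff_of_subset Finset.inter_subset_right
      omega
    obtain ⟨y, hy⟩ := Finset.card_eq_one.1 h1
    have h2 : y ∈ agr f c e \ U := by rw [hy]; exact Finset.mem_singleton_self _
    refine ⟨y, ?_, (Finset.mem_sdiff.1 h2).2⟩
    rw [← Finset.sdiff_union_of_subset (show U ⊆ agr f c e from Finset.inter_subset_right), hy]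
    rfl
  have hxy : y ≠ x := by
    rintro rfl
    apply hx.2
    rw [hU, hx.1, hy.1]
    simp
  set K : Finset I := (insert x U)ᶜ with hK
  have hxU : (insert x U).card = U.card + 1 := Finset.card_insert_of_notMem hx.2
  have hKc : K.card = Fintype.card A := by
    have := Finset.card_add_card_compl (insert x U)
    rw [← hK] at this
    omega
  have hKm : ∀ y, y ∈ K ↔ y ≠ x ∧ y ∉ U := by
    intro y
    rw [hK, Finset.mem_compl, Finset.mem_insert]
    tauto
  have hKd : ∀ i ∈ K, f d i ≠ f c i := by
    intro i hi h'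
    have : i ∈ agr f c d := mem_agr.2 h'.symm
    rw [hx.1, Finset.mem_insert] at this
    have := (hKm i).1 hi
    tauto
  set E : Finset W := Finset.univ.filter (fun w => ∃ y ∈ K, agr f c w = insert y U) with hE
  have hEm : ∀ w, w ∈ E ↔ ∃ y ∈ K, agr f c w = insert y U := by
    intro w; rw [hE]; simp
  -- number of elements of `E`
  have hEc : E.card = (Fintype.card A - 1) * Fintype.card A := by
    rw [Finset.card_eq_sum_card_fiberwise (s := E) (f := fun w => f w x)
      (t := Finset.univ.erase (f c x))]
    · have h1 : ∀ Q ∈ Finset.univ.erase (f c x), (E.filter (fun w => f w x = Q)).card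
          = Fintype.card A := by
        intro Q hQ
        rw [← hKc, ← card_tan h hk hn c U hde x hx.2 K (fun y hy => (hKm y).1 hy) Q
          (Finset.ne_of_mem_erase hQ)]
        congr 1
        ext w
        have h6 : w ∈ E.filter (fun w => f w x = Q) ↔
            (∃ y ∈ K, agr f c w = insert y U) ∧ f w x = Q := by
          rw [Finset.mem_filter, hEm]
        have h7 : w ∈ Finset.univ.filter (fun w => f w x = Q ∧
            ∃ y ∈ K, agr f c w = insert y U) ↔
            (f w x = Q ∧ ∃ y ∈ K, agr f c w = insert y U) := by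
          rw [Finset.mem_filter]
          exact and_iff_right (Finset.mem_univ _)
        rw [h6, h7, and_comm]
      rw [Finset.sum_congr rfl h1, Finset.sum_const, smul_eq_mul,
        Finset.card_erase_of_mem (Finset.mem_univ _), Finset.card_univ]
    · intro w hw
      have hw := Finset.mem_coe.1 hw
      obtain ⟨z, hz, hz2⟩ := (hEm w).1 hw
      rw [Finset.mem_coe, Finset.mem_erase]
      refine ⟨?_, Finset.mem_univ _⟩
      intro h'
      have : x ∈ agr f c w := mem_agr.2 h'.symm
      rw [hz2, Finset.mem_insert] at this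
      rcases this with rfl | this
      · exact ((hKm x).1 hz).1 rfl
      · exact hx.2 this
  -- agreements with `d`
  have hsum : ∑ w ∈ E, (K.filter (fun i => f w i = f d i)).card
      = (Fintype.card A - 1) * Fintype.card A := by
    have h1 : ∀ w : W, (K.filter (fun i => f w i = f d i)).card
        = ∑ i ∈ K, if f w i = f d i then 1 else 0 := by
      intro w
      rw [Finset.card_filter]
    rw [Finset.sum_congr rfl (fun w _ => h1 w), Finset.sum_comm]
    have h2 : ∀ i ∈ K, (∑ w ∈ E, if f w i = f d i then 1 else 0) = Fintype.card A - 1 := by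
      intro i hi
      rw [← Finset.card_filter]
      have h3 := card_tan h hk hn c U hde i ((hKm i).1 hi).2 (K.erase i)
        (fun y hy => ⟨Finset.ne_of_mem_erase hy, ((hKm y).1 (Finset.mem_of_mem_erase hy)).2⟩)
        (f d i) (hKd i hi)
      rw [Finset.card_erase_of_mem hi, hKc] at h3
      rw [← h3]
      congr 1
      ext w
      have h6 : w ∈ E.filter (fun w => f w i = f d i) ↔
          (∃ y ∈ K, agr f c w = insert y U) ∧ f w i = f d i := by
        rw [Finset.mem_filter, hEm]
      have h7 : w ∈ Finset.univ.filter (fun w => f w i = f d i ∧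
          ∃ y ∈ K.erase i, agr f c w = insert y U) ↔
          (f w i = f d i ∧ ∃ y ∈ K.erase i, agr f c w = insert y U) := by
        rw [Finset.mem_filter]
        exact and_iff_right (Finset.mem_univ _)
      rw [h6, h7]
      constructor
      · rintro ⟨⟨z, hz, hz2⟩, h5⟩
        refine ⟨h5, z, ?_, hz2⟩
        rw [Finset.mem_erase]
        refine ⟨?_, hz⟩
        rintro rfl
        apply hKd z hz
        rw [← h5]
        have : z ∈ agr f c w := by rw [hz2]; exact Finset.mem_insert_self _ _
        exact (mem_agr.1 this).symm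
      · rintro ⟨h5, z, hz, hz2⟩
        exact ⟨⟨z, Finset.mem_of_mem_erase hz, hz2⟩, h5⟩
    rw [Finset.sum_congr rfl h2, Finset.sum_const, smul_eq_mul, hKc, mul_comm]
  have hle : ∀ w ∈ E, (K.filter (fun i => f w i = f d i)).card ≤ 1 := by
    intro w hw
    obtain ⟨z, hz, hz2⟩ := (hEm w).1 hw
    obtain ⟨hz3, hz4⟩ := (hKm z).1 hz
    by_contra hcon
    push Not at hcon
    obtain ⟨i, hi, j, hj, hij⟩ := Finset.one_lt_card.1 hcon
    rw [Finset.mem_filter] at hi hj
    have hiU := ((hKm i).1 hi.1).2
    have hjU := ((hKm j).1 hj.1).2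
    have h1 := P2 h hk hn heven c U hde i j hiU hjU hij (f d i) (f d j) (hKd i hi.1)
      (hKd j hj.1)
    obtain ⟨u, hu⟩ := Finset.card_eq_one.1 h1
    have hdm : d ∈ Finset.univ.filter (fun w => ((∀ t ∈ U, f w t = f c t) ∧ f w i = f d i ∧
        f w j = f d j) ∧ (agr f c w).card + 2 = m) := by
      rw [Finset.mem_filter]
      refine ⟨Finset.mem_univ _, ⟨fun t ht => ?_, rfl, rfl⟩, hd⟩
      have : t ∈ agr f c d := by rw [hx.1]; exact Finset.mem_insert_of_mem ht
      exact (mem_agr.1 this).symm
    have hwm : w ∈ Finset.univ.filter (fun w => ((∀ t ∈ U, f w t = f c t) ∧ f w i = f d i ∧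
        f w j = f d j) ∧ (agr f c w).card + 2 = m) := by
      rw [Finset.mem_filter]
      refine ⟨Finset.mem_univ _, ⟨fun t ht => ?_, hi.2, hj.2⟩, ?_⟩
      · have : t ∈ agr f c w := by rw [hz2]; exact Finset.mem_insert_of_mem ht
        exact (mem_agr.1 this).symm
      · rw [hz2, Finset.card_insert_of_notMem hz4]; omega
    rw [hu, Finset.mem_singleton] at hdm hwm
    have hdw : d = w := hdm.trans hwm.symm
    subst hdw
    have : z ∈ agr f c d := by rw [hz2]; exact Finset.mem_insert_self _ _
    rw [hx.1, Finset.mem_insert] at this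
    tauto
  have heE : e ∈ E := (hEm e).2 ⟨y, (hKm y).2 ⟨hxy, hy.2⟩, hy.1⟩
  have hone : (K.filter (fun i => f e i = f d i)).card = 1 := by
    by_contra hcon
    have h1 : (K.filter (fun i => f e i = f d i)).card < 1 := lt_of_le_of_ne (hle e heE) hcon
    have h2 := Finset.sum_lt_sum hle ⟨e, heE, h1⟩
    rw [Finset.sum_const, smul_eq_mul, mul_one, hsum, hEc] at h2
    omega
  have hfin : agr f d e = U ∪ K.filter (fun i => f e i = f d i) := by
    ext i
    rw [Finset.mem_union, Finset.mem_filter, hKm, mem_agr]
    constructor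
    · intro hi
      by_cases hiU : i ∈ U
      · exact Or.inl hiU
      · refine Or.inr ⟨⟨?_, hiU⟩, hi.symm⟩
        rintro rfl
        apply hiU
        have h3 : i ∈ agr f c d := by rw [hx.1]; exact Finset.mem_insert_self _ _
        rw [hU, Finset.mem_inter]
        refine ⟨h3, mem_agr.2 ?_⟩
        rw [← hi]; exact mem_agr.1 h3
    · rintro (hi | hi)
      · rw [hU, Finset.mem_inter, mem_agr, mem_agr] at hi
        rw [← hi.1, ← hi.2]
      · exact hi.2.symm
  rw [hfin, Finset.card_union_of_disjoint, hone]
  · omega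
  · rw [Finset.disjoint_left]
    intro i hi hi'
    exact ((hKm i).1 (Finset.mem_filter.1 hi').1).2 hi

end Pool.Agent.H2.OAX
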